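import Pool.Agent.H40.OC.Basic

set_option autoImplicit false

namespace Pool.Agent.H40OC

variable {α : Type}

def fE (cs : List (List α × List α)) : List α := (cs.map Prod.fst).flatten
def fO (cs : List (List α × List α)) : List α := (cs.map Prod.snd).flatten

@[simp] lemma fE_nil : fE ([] : List (List α × List α)) = [] := rfl
@[simp] lemma fO_nil : fO ([] : List (List α × List α)) = [] := rfl
@[simp] lemma fE_cons (p : List α × List α) (cs : List (List α × List α)) :
    fE (p :: cs) = p.1 ++ fE cs := by simp [fE]
@[simp] lemma fO_cons (p : List α × List α) (cs : List (List α × List α)) :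
    fO (p :: cs) = p.2 ++ fO cs := by simp [fO]
@[simp] lemma fE_append (cs ds : List (List α × List α)) : fE (cs ++ ds) = fE cs ++ fE ds := by
  simp [fE]
@[simp] lemma fO_append (cs ds : List (List α × List α)) : fO (cs ++ ds) = fO cs ++ fO ds := by
  simp [fO]

/-- columns with two halves of the same length -/
def Bal (cs : List (List α × List α)) : Prop := ∀ p ∈ cs, p.1.length = p.2.length

lemma Bal.len {cs : List (List α × List α)} (h : Bal cs) : (fE cs).length = (fO cs).length := by
  induction cs with
  | nil => rfl
  | cons p cs ih =>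
    have h1 := h p (by simp)
    have h2 := ih (fun q hq => h q (by simp [hq]))
    simp [h1, h2]

lemma Bal.left {cs ds : List (List α × List α)} (h : Bal (cs ++ ds)) : Bal cs :=
  fun p hp => h p (by simp [hp])
lemma Bal.right {cs ds : List (List α × List α)} (h : Bal (cs ++ ds)) : Bal ds :=
  fun p hp => h p (by simp [hp])

/-- The two-row array: the rows are `fE cs` and `fO cs`; the entry of the second row follows the
entry of the first row in the same column at distance `2 h + 1`, where `h` is the length of the
filling lists `jE` and `jO`. -/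
def arr (a : α) (jE jO : List α) (cs : List (List α × List α)) : List α :=
  a :: il (fE cs ++ jE) (jO ++ fO cs)

lemma coe_arr (a : α) (jE jO : List α) (cs : List (List α × List α)) :
    ((arr a jE jO cs : List α) : Multiset α) =
      {a} + jE + jO + (cs.map (fun p => (p.1 : Multiset α) + (p.2 : Multiset α))).sum := by
  have key : ((fE cs : List α) : Multiset α) + (fO cs : List α) =
      (cs.map (fun p => (p.1 : Multiset α) + (p.2 : Multiset α))).sum := by
    induction cs with
    | nil => simp
    | cons p cs ih =>
      simp only [fE_cons, fO_cons, ← Multiset.coe_add, List.map_cons, List.sum_cons, ← ih]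
      abel
  unfold arr
  rw [← Multiset.cons_coe, coe_il, ← Multiset.coe_add, ← Multiset.coe_add, ← key,
    ← Multiset.singleton_add]
  abel

variable {a : α} {jE jO : List α} {h : ℕ}

lemma arr_split {pre post : List (List α × List α)} (hb : Bal pre) (A B : List α) :
    arr a jE jO (pre ++ (A, B) :: post) =
      (a :: il (fE pre) ((jO ++ fO pre).take (fE pre).length)) ++
        il (A ++ (fE post ++ jE)) ((jO ++ fO pre).drop (fE pre).length ++ (B ++ fO post)) := by
  unfold arr
  have e1 : fE (pre ++ (A, B) :: post) ++ jE = fE pre ++ (A ++ (fE post ++ jE)) := by simp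
  have e2 : jO ++ fO (pre ++ (A, B) :: post) =
      (jO ++ fO pre).take (fE pre).length ++
        ((jO ++ fO pre).drop (fE pre).length ++ (B ++ fO post)) := by
    rw [← List.append_assoc ((jO ++ fO pre).take _), List.take_append_drop]
    simp
  rw [e1, e2, il_append]
  · simp
  · rw [List.length_take, List.length_append, ← hb.len]
    omega

lemma drop_len {pre : List (List α × List α)} (hb : Bal pre) (hjO : jO.length = h) :
    ((jO ++ fO pre).drop (fE pre).length).length = h := by
  rw [List.length_drop, List.length_append, ← hb.len]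
  omega

/-- the segment between the first entries of the two halves of a column -/
lemma il_col {x y : α} {A' B' R R' D : List α} (hD : D.length = h)
    (hR : h ≤ (A' ++ R).length) :
    ∃ T, il (x :: A' ++ R) (D ++ (y :: B' ++ R')) =
      (x :: (il D ((A' ++ R).take h) ++ [y])) ++ T := by
  have e1 : x :: A' ++ R = (x :: (A' ++ R).take h) ++ (A' ++ R).drop h := by simp
  have e2 : D ++ (y :: B' ++ R') = (D ++ [y]) ++ (B' ++ R') := by simp
  have hl : ((A' ++ R).take h).length = h := by simp only [List.length_take]; omega
  rw [e1, e2, il_append _ _ _ _ (by simp [hl, hD])]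
  refine ⟨il ((A' ++ R).drop h) (B' ++ R'), ?_⟩
  rw [il_cons]
  have := il_append D ((A' ++ R).take h) [y] [] (by rw [hl, hD])
  simp only [List.append_nil, il_cons, il_nil] at this
  rw [this]

lemma seg_col (hjE : jE.length = h) (hjO : jO.length = h) {pre post : List (List α × List α)}
    (hb : Bal pre) {x y : α} {A' B' : List α} :
    (x :: (il ((jO ++ fO pre).drop (fE pre).length) ((A' ++ (fE post ++ jE)).take h) ++ [y])) <:+:
      arr a jE jO (pre ++ (x :: A', y :: B') :: post) := by
  rw [arr_split hb]
  obtain ⟨T, hT⟩ := il_col (x := x) (y := y) (A' := A') (B' := B') (R := fE post ++ jE)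
    (R' := fO post) (drop_len hb hjO) (by simp only [List.length_append]; omega)
  rw [hT]
  exact ⟨a :: il (fE pre) ((jO ++ fO pre).take (fE pre).length), T, by
    simp only [List.append_assoc]⟩

/-- in-place swap of the halves of a column -/
lemma cyc_swap (hjE : jE.length = h) (hjO : jO.length = h)
    {pre post post' : List (List α × List α)} (hb : Bal pre) {A B : List α}
    (hAB : A.length = B.length) (hA : A ≠ [])
    (n1 : (arr a jE jO (pre ++ (A, B) :: post)).Nodup)
    (n2 : (arr a jE jO (pre ++ (B, A) :: post')).Nodup) :
    Cyc (2 * h + 3) (arr a jE jO (pre ++ (A, B) :: post))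
      (arr a jE jO (pre ++ (B, A) :: post')) := by
  match A, B, hA, hAB with
  | x :: A', y :: B', _, hAB =>
    set Z := a :: il (fE pre) ((jO ++ fO pre).take (fE pre).length) with hZ
    obtain ⟨Z', z, hZ'⟩ : ∃ Z' z, Z = Z' ++ [z] :=
      ⟨Z.dropLast, Z.getLast (by simp [hZ]), (List.dropLast_append_getLast _).symm⟩
    have s1 : Seg (arr a jE jO (pre ++ (x :: A', y :: B') :: post)) z [] x := by
      left
      rw [arr_split hb, ← hZ, hZ']
      exact ⟨Z', il ((jO ++ fO pre).drop (fE pre).length ++ (y :: B' ++ fO post))
        (A' ++ (fE post ++ jE)), by simp⟩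
    have s2 : Seg (arr a jE jO (pre ++ (y :: B', x :: A') :: post')) z
        (y :: il ((jO ++ fO pre).drop (fE pre).length) ((B' ++ (fE post' ++ jE)).take h)) x := by
      left
      rw [arr_split hb, ← hZ, hZ']
      obtain ⟨T, hT⟩ := il_col (x := y) (y := x) (A' := B') (B' := A') (R := fE post' ++ jE)
        (R' := fO post') (drop_len hb hjO) (by simp only [List.length_append]; omega)
      rw [hT]
      exact ⟨Z', T, by simp⟩
    refine cyc_of_segs n1 n2 s1 s2 (by simp) ?_ (by omega)
    simp only [List.length_nil, List.length_cons, il_length, drop_len hb hjO, List.length_take,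
      List.length_append]
    omega

lemma mem_split {cs : List (List α × List α)} {p : List α × List α} (hp : p ∈ cs) :
    ∃ pre post, cs = pre ++ p :: post := by
  obtain ⟨s, t, h⟩ := List.append_of_mem hp
  exact ⟨s, t, h⟩

/-- both halves of a column are combs -/
lemma comb_col (hjE : jE.length = h) (hjO : jO.length = h) {cs : List (List α × List α)}
    (hb : Bal cs) {A B : List α} (hp : (A, B) ∈ cs) (hA : A ≠ []) :
    Comb (arr a jE jO cs) A ∧ Comb (arr a jE jO cs) B := by
  have hAB : A.length = B.length := hb _ hp
  have hB : B ≠ [] := by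
    intro h0
    rw [h0] at hAB
    exact hA (List.length_eq_zero_iff.1 hAB)
  obtain ⟨pre, post, rfl⟩ := mem_split hp
  have hbp : Bal pre := hb.left
  have hpost : Bal post := fun q hq => hb q (by simp [hq])
  have hlA : 0 < A.length := List.length_pos_iff.2 hA
  have hlp := hbp.len
  have hlpo := hpost.len
  constructor
  · -- first row
    set X := fE (pre ++ (A, B) :: post) ++ jE with hX
    set Y := jO ++ fO (pre ++ (A, B) :: post) with hY
    have hXY : X.length = Y.length := by
      simp only [hX, hY, fE_append, fE_cons, fO_append, fO_cons, List.length_append]; omega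
    have hXe : X = fE pre ++ A ++ (fE post ++ jE) := by simp [hX]
    -- drop the last entry of Y
    obtain ⟨Y', y, hYy⟩ : ∃ Y' y, Y = Y' ++ [y] := by
      have : Y ≠ [] := by
        intro h0
        rw [h0] at hXY
        simp only [hXe, List.length_append, List.length_nil] at hXY
        omega
      exact ⟨Y.dropLast, Y.getLast this, (List.dropLast_append_getLast this).symm⟩
    obtain ⟨M', m1, m2⟩ := il_infix (P := fE pre) (K := A) (Q := fE post ++ jE) (M := Y') hA (by
      rw [← hXe, hXY, hYy]; simp)
    refine ⟨M', m1, Or.inl (m2.trans ?_)⟩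
    rw [← hXe]
    -- il X Y' is a prefix of il X Y
    have : il X Y = il X Y' ++ [y] := by
      obtain ⟨X', x, hXx⟩ : ∃ X' x, X = X' ++ [x] := by
        have : X ≠ [] := by
          intro h0
          rw [h0, hYy] at hXY
          simp at hXY
        exact ⟨X.dropLast, X.getLast this, (List.dropLast_append_getLast this).symm⟩
      have hl : X'.length = Y'.length := by
        rw [hXx, hYy] at hXY
        simpa using hXY
      have e1 := il_append X' Y' [x] [y] hl
      have e2 := il_append X' Y' [x] [] hl
      simp only [List.append_nil, il_cons, il_nil] at e1 e2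
      rw [hXx, hYy, e1, e2]
      simp
    unfold arr
    rw [← hX, ← hY, this]
    exact ⟨[a], [y], by simp⟩
  · -- second row
    set X := fE (pre ++ (A, B) :: post) ++ jE with hX
    set Y := jO ++ fO (pre ++ (A, B) :: post) with hY
    have hXY : X.length = Y.length := by
      simp only [hX, hY, fE_append, fE_cons, fO_append, fO_cons, List.length_append]; omega
    have hYe : Y = (jO ++ fO pre) ++ B ++ fO post := by simp [hY]
    obtain ⟨x, X', hXx⟩ : ∃ x X', X = x :: X' := by
      have : X ≠ [] := by
        intro h0
        rw [h0] at hXY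
        simp only [hYe, List.length_append, List.length_nil] at hXY
        omega
      exact ⟨X.head this, X.tail, (List.cons_head_tail this).symm⟩
    obtain ⟨M', m1, m2⟩ := il_infix (P := jO ++ fO pre) (K := B) (Q := fO post) (M := X') hB (by
      rw [← hYe, ← hXY, hXx]; simp)
    refine ⟨M', m1, Or.inl (m2.trans ?_)⟩
    rw [← hYe]
    unfold arr
    rw [← hX, ← hY, hXx, il_cons]
    exact (List.suffix_append [a, x] _).isInfix

/-- a column of long halves against the comb obtained by merging its halves -/
lemma cyc_large (hjE : jE.length = h) (hjO : jO.length = h) {cs : List (List α × List α)}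
    (hb : Bal cs) {V V' : List α} (hV : h + 1 ≤ V.length) (hVV : V.length = V'.length)
    (hp : (V, V') ∈ cs ∨ (V', V) ∈ cs) {l' : List α}
    (n1 : (arr a jE jO cs).Nodup) (n2 : l'.Nodup) (hc : Comb l' (V.reverse ++ V')) :
    Cyc (2 * h + 3) (arr a jE jO cs) l' := by
  -- the adjacency inside the array
  have key : ∀ (V V' : List α), h + 1 ≤ V.length → V.length = V'.length → (V, V') ∈ cs →
      ∃ V0 u V3 y V4, V0.length = h ∧ V = V0 ++ u :: V3 ∧ V' = y :: V4 ∧
        Seg (arr a jE jO cs) u [] y := by
    intro V V' hV hVV hp
    obtain ⟨pre, post, rfl⟩ := mem_split hp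
    have hbp : Bal pre := hb.left
    obtain ⟨y, V4, rfl⟩ : ∃ y V4, V' = y :: V4 := by
      have : V' ≠ [] := by
        intro h0; rw [h0] at hVV; simp at hVV; rw [hVV] at hV; simp at hV
      exact ⟨V'.head this, V'.tail, (List.cons_head_tail this).symm⟩
    obtain ⟨V0, u, V3, rfl, h0⟩ : ∃ V0 u V3, V = V0 ++ u :: V3 ∧ V0.length = h := by
      refine ⟨V.take h, V[h], V.drop (h + 1), ?_, by simp; omega⟩
      rw [← List.drop_eq_getElem_cons, List.take_append_drop]
    refine ⟨V0, u, V3, y, V4, h0, rfl, rfl, Or.inl ?_⟩
    rw [arr_split hbp]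
    have e1 : V0 ++ u :: V3 ++ (fE post ++ jE) = V0 ++ (u :: (V3 ++ (fE post ++ jE))) := by simp
    rw [e1, il_append _ _ _ _ (by rw [drop_len hbp hjO, h0])]
    refine ⟨(a :: il (fE pre) ((jO ++ fO pre).take (fE pre).length)) ++
      il V0 ((jO ++ fO pre).drop (fE pre).length), il (V3 ++ (fE post ++ jE)) (V4 ++ fO post), ?_⟩
    simp
  rcases hp with hp | hp
  · obtain ⟨V0, u, V3, y, V4, h0, rfl, rfl, hs⟩ := key V V' hV hVV hp
    have e : (V0 ++ u :: V3).reverse ++ y :: V4 = V3.reverse ++ u :: (V0.reverse ++ y :: V4) := by
      simp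
    rw [e] at hc
    obtain ⟨M, hM, hseg | hseg⟩ := hc.seg
    · refine cyc_of_segs n1 n2 hs hseg (by simp) ?_ (by omega)
      simp only [List.length_nil, il_length, hM, List.length_reverse]; omega
    · refine cyc_of_segs n1 n2 hs hseg.symm (by simp) ?_ (by omega)
      simp only [List.length_nil, il_length, hM, List.length_reverse]; omega
  · obtain ⟨V0, u, V3, y, V4, h0, rfl, rfl, hs⟩ := key V' V (by omega) hVV.symm hp
    have e : (y :: V4).reverse ++ (V0 ++ u :: V3) = V4.reverse ++ y :: (V0 ++ u :: V3) := by
      simp
    rw [e] at hc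
    obtain ⟨M, hM, hseg | hseg⟩ := hc.seg
    · refine cyc_of_segs n1 n2 hs hseg.symm (by simp) ?_ (by omega)
      simp only [List.length_nil, il_length, hM, List.length_reverse]; omega
    · refine cyc_of_segs n1 n2 hs hseg (by simp) ?_ (by omega)
      simp only [List.length_nil, il_length, hM, List.length_reverse]; omega

end Pool.Agent.H40OC
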