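import Pool.Agent.H40.OC.Arr

set_option autoImplicit false

namespace Pool.Agent.H40OC

variable {α : Type}

/-- merge the pairs of equal colour -/
def mg : List (Bool × List α) → List (Bool × List α)
  | (b, V) :: (b', V') :: Y => if b = b' then (b, V.reverse ++ V') :: mg Y else mg Y
  | _ => []

/-- the pairs of different colours -/
def un : List (Bool × List α) → List (List α × List α)
  | (b, V) :: (b', V') :: Y =>
    if b = b' then un Y else (if b then (V', V) else (V, V')) :: un Y
  | _ => []

lemma mg_cc (b b' : Bool) (V V' : List α) (Y : List (Bool × List α)) :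
    mg ((b, V) :: (b', V') :: Y) = if b = b' then (b, V.reverse ++ V') :: mg Y else mg Y := by
  rw [mg]

lemma un_cc (b b' : Bool) (V V' : List α) (Y : List (Bool × List α)) :
    un ((b, V) :: (b', V') :: Y) =
      if b = b' then un Y else (if b then (V', V) else (V, V')) :: un Y := by
  rw [un]

def dbl : ℕ → List (Bool × List α) → List (List α × List α)
  | 0, _ => []
  | f + 1, Y => un Y ++ dbl f (mg Y)

def sg (b : Bool) : ℤ := if b then 1 else -1

def EE (Y : List (Bool × List α)) : ℤ := (Y.map (fun p => sg p.1)).sum

def msum (Y : List (Bool × List α)) : Multiset α := (Y.map (fun p => (p.2 : Multiset α))).sum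

def csum (cs : List (List α × List α)) : Multiset α :=
  (cs.map (fun p => (p.1 : Multiset α) + (p.2 : Multiset α))).sum

lemma EE_parity (Y : List (Bool × List α)) : ∃ z : ℤ, EE Y = Y.length + 2 * z := by
  induction Y with
  | nil => exact ⟨0, by simp [EE]⟩
  | cons p Y ih =>
    obtain ⟨z, hz⟩ := ih
    have e : EE (p :: Y) = sg p.1 + EE Y := by simp [EE]
    rw [e, hz]
    by_cases hp : p.1 = true
    · exact ⟨z, by simp [sg, hp]; ring⟩
    · exact ⟨z - 1, by simp [sg, hp]; ring⟩

lemma even_of_EE {Y : List (Bool × List α)} (h : EE Y = 0) : Even Y.length := by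
  obtain ⟨z, hz⟩ := EE_parity Y
  rw [h] at hz
  have : ((Y.length : ℕ) : ℤ) = 2 * (-z) := by linarith
  have h2 : Even ((Y.length : ℕ) : ℤ) := ⟨-z, by rw [this]; ring⟩
  exact_mod_cast h2

lemma EE_mg : ∀ (Y : List (Bool × List α)), Even Y.length → EE Y = 2 * EE (mg Y)
  | [], _ => by simp [EE, mg]
  | [_], h => by simp at h
  | (b, V) :: (b', V') :: Y, h => by
    have h' : Even Y.length := by
      simp only [List.length_cons] at h
      obtain ⟨r, hr⟩ := h
      exact ⟨r - 1, by omega⟩
    have ih := EE_mg Y h'
    have e : EE ((b, V) :: (b', V') :: Y) = sg b + (sg b' + EE Y) := by simp [EE]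
    rw [e, ih, mg_cc]
    by_cases hb : b = b'
    · subst hb
      rw [if_pos rfl]
      have e2 : EE ((b, V.reverse ++ V') :: mg Y) = sg b + EE (mg Y) := by simp [EE]
      rw [e2]; ring
    · rw [if_neg hb]
      have : sg b + sg b' = 0 := by
        revert hb; cases b <;> cases b' <;> simp [sg]
      linarith

lemma mg_length : ∀ (Y : List (Bool × List α)), 2 * (mg Y).length ≤ Y.length
  | [] => by simp [mg]
  | [_] => by simp [mg]
  | (b, V) :: (b', V') :: Y => by
    have ih := mg_length Y
    rw [mg_cc]
    split_ifs
    · simp only [List.length_cons]; omega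
    · simp only [List.length_cons]; omega

lemma msum_split : ∀ (Y : List (Bool × List α)), Even Y.length → msum Y = csum (un Y) + msum (mg Y)
  | [], _ => by simp [msum, csum, un, mg]
  | [_], h => by simp at h
  | (b, V) :: (b', V') :: Y, h => by
    have h' : Even Y.length := by
      simp only [List.length_cons] at h
      obtain ⟨r, hr⟩ := h
      exact ⟨r - 1, by omega⟩
    have ih := msum_split Y h'
    have e : msum ((b, V) :: (b', V') :: Y) = (V : Multiset α) + ((V' : Multiset α) + msum Y) := by
      simp [msum]
    rw [e, ih, mg_cc, un_cc]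
    by_cases hb : b = b'
    · rw [if_pos hb, if_pos hb]
      have e2 : msum ((b, V.reverse ++ V') :: mg Y) = (V : Multiset α) + V' + msum (mg Y) := by
        simp only [msum, List.map_cons, List.sum_cons, ← Multiset.coe_add, Multiset.coe_reverse]
      rw [e2]; abel
    · rw [if_neg hb, if_neg hb]
      by_cases hb2 : b = true
      · rw [if_pos hb2]
        simp only [csum, List.map_cons, List.sum_cons]
        abel
      · rw [if_neg hb2]
        simp only [csum, List.map_cons, List.sum_cons]
        abel

lemma dbl_sum : ∀ (f : ℕ) (Y : List (Bool × List α)), EE Y = 0 → Y.length ≤ f →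
    csum (dbl f Y) = msum Y
  | 0, Y, _, hf => by
    have : Y = [] := List.length_eq_zero_iff.1 (by omega)
    subst this
    simp [dbl, csum, msum]
  | f + 1, Y, hE, hf => by
    have he := even_of_EE hE
    have h2 := EE_mg Y he
    have h3 : EE (mg Y) = 0 := by rw [hE] at h2; linarith
    have h4 := mg_length Y
    rcases Nat.eq_zero_or_pos Y.length with h0 | h0
    · have : Y = [] := List.length_eq_zero_iff.1 h0
      subst this
      have := dbl_sum f (mg []) h3 (by simp [mg])
      simp only [mg] at this
      simp only [dbl, un, List.nil_append, mg]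
      exact this
    · have ih := dbl_sum f (mg Y) h3 (by omega)
      rw [msum_split Y he, ← ih]
      simp [dbl, csum]

/-- all combs have length `L` -/
def Len (L : ℕ) (Y : List (Bool × List α)) : Prop := ∀ p ∈ Y, p.2.length = L

lemma Len.mg {L : ℕ} : ∀ {Y : List (Bool × List α)}, Len L Y → Len (2 * L) (mg Y)
  | [], _ => by intro p hp; simp [H40OC.mg] at hp
  | [_], _ => by intro p hp; simp [H40OC.mg] at hp
  | (b, V) :: (b', V') :: Y, h => by
    have h1 : V.length = L := h (b, V) (by simp)
    have h2 : V'.length = L := h (b', V') (by simp)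
    have ih := Len.mg (Y := Y) (L := L) (fun p hp => h p (by simp [hp]))
    unfold H40OC.mg
    split_ifs
    · intro p hp
      rcases List.mem_cons.1 hp with rfl | hp
      · simp [h1, h2]; omega
      · exact ih p hp
    · exact ih

lemma un_len {L : ℕ} : ∀ {Y : List (Bool × List α)}, Len L Y →
    ∀ p ∈ un Y, p.1.length = L ∧ p.2.length = L
  | [], _ => by intro p hp; simp [un] at hp
  | [_], _ => by intro p hp; simp [un] at hp
  | (b, V) :: (b', V') :: Y, h => by
    have h1 : V.length = L := h (b, V) (by simp)
    have h2 : V'.length = L := h (b', V') (by simp)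
    have ih := un_len (Y := Y) (L := L) (fun p hp => h p (by simp [hp]))
    unfold un
    split_ifs
    · exact ih
    · intro p hp
      rcases List.mem_cons.1 hp with rfl | hp
      · exact ⟨h2, h1⟩
      · exact ih p hp
    · intro p hp
      rcases List.mem_cons.1 hp with rfl | hp
      · exact ⟨h1, h2⟩
      · exact ih p hp

lemma dbl_bal : ∀ (f : ℕ) {L : ℕ} {Y : List (Bool × List α)}, Len L Y → Bal (dbl f Y)
  | 0, _, _, _ => by intro p hp; simp [dbl] at hp
  | f + 1, L, Y, h => by
    intro p hp
    simp only [dbl, List.mem_append] at hp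
    rcases hp with hp | hp
    · have := un_len h p hp
      rw [this.1, this.2]
    · exact dbl_bal f h.mg p hp

/-- every comb occurs in some column -/
def Occ (K : List α) (p : List α × List α) : Prop :=
  (K <:+: p.1 ∨ K.reverse <:+: p.1) ∨ (K <:+: p.2 ∨ K.reverse <:+: p.2)

lemma Occ.trans {K K' : List α} {p : List α × List α} (h : K <:+: K') (h' : Occ K' p) :
    Occ K p := by
  have hr : K.reverse <:+: K'.reverse := List.reverse_infix.2 h
  rcases h' with (h' | h') | (h' | h')
  · exact Or.inl (Or.inl (h.trans h'))
  · exact Or.inl (Or.inr (hr.trans h'))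
  · exact Or.inr (Or.inl (h.trans h'))
  · exact Or.inr (Or.inr (hr.trans h'))

lemma Occ.rev {K : List α} {p : List α × List α} (h : Occ K.reverse p) : Occ K p := by
  unfold Occ at *
  rw [List.reverse_reverse] at h
  tauto

lemma mem_step : ∀ {Y : List (Bool × List α)}, Even Y.length → ∀ K ∈ Y.map Prod.snd,
    (∃ p ∈ un Y, K = p.1 ∨ K = p.2) ∨
      (∃ K' ∈ (mg Y).map Prod.snd, K <:+: K' ∨ K.reverse <:+: K')
  | [], _, K, hK => by simp at hK
  | [_], h, K, hK => by simp at h
  | (b, V) :: (b', V') :: Y, h, K, hK => by
    have h' : Even Y.length := by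
      simp only [List.length_cons] at h
      obtain ⟨r, hr⟩ := h
      exact ⟨r - 1, by omega⟩
    have ih := mem_step (Y := Y) h'
    unfold un mg
    simp only [List.map_cons, List.mem_cons] at hK
    by_cases hb : b = b'
    · rw [if_pos hb, if_pos hb]
      rcases hK with rfl | rfl | hK
      · right
        exact ⟨K.reverse ++ V', by simp, Or.inr (List.prefix_append _ _).isInfix⟩
      · right
        exact ⟨V.reverse ++ K, by simp, Or.inl (List.suffix_append _ _).isInfix⟩
      · rcases ih K hK with h1 | ⟨K', h1, h2⟩
        · exact Or.inl h1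
        · exact Or.inr ⟨K', by simp only [List.map_cons, List.mem_cons]; exact Or.inr h1, h2⟩
    · rw [if_neg hb, if_neg hb]
      rcases hK with rfl | rfl | hK
      · left
        by_cases hb2 : b = true
        · exact ⟨(V', K), by simp [hb2], Or.inr rfl⟩
        · exact ⟨(K, V'), by simp [hb2], Or.inl rfl⟩
      · left
        by_cases hb2 : b = true
        · exact ⟨(K, V), by simp [hb2], Or.inl rfl⟩
        · exact ⟨(V, K), by simp [hb2], Or.inr rfl⟩
      · rcases ih K hK with ⟨p, h1, h2⟩ | h1
        · exact Or.inl ⟨p, by simp only [List.mem_cons]; exact Or.inr h1, h2⟩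
        · exact Or.inr h1

lemma dbl_occ : ∀ (f : ℕ) {Y : List (Bool × List α)}, EE Y = 0 → Y.length ≤ f →
    ∀ K ∈ Y.map Prod.snd, ∃ p ∈ dbl f Y, Occ K p
  | 0, Y, _, hf, K, hK => by
    have : Y = [] := List.length_eq_zero_iff.1 (by omega)
    subst this
    simp at hK
  | f + 1, Y, hE, hf, K, hK => by
    have he := even_of_EE hE
    have h2 := EE_mg Y he
    have h3 : EE (mg Y) = 0 := by rw [hE] at h2; linarith
    have h4 := mg_length Y
    have hpos : 0 < Y.length := by
      rcases Nat.eq_zero_or_pos Y.length with h0 | h0
      · have : Y = [] := List.length_eq_zero_iff.1 h0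
        subst this
        simp at hK
      · exact h0
    rcases mem_step he K hK with ⟨p, hp, h5⟩ | ⟨K', hK', h5⟩
    · refine ⟨p, by simp [dbl, hp], ?_⟩
      rcases h5 with rfl | rfl
      · exact Or.inl (Or.inl List.infix_rfl)
      · exact Or.inr (Or.inl List.infix_rfl)
    · obtain ⟨p, hp, h6⟩ := dbl_occ f h3 (by omega) K' hK'
      refine ⟨p, by simp [dbl, hp], ?_⟩
      rcases h5 with h5 | h5
      · exact h6.trans h5
      · exact (h6.trans h5).rev

lemma comb_dbl {a : α} {jE jO : List α} {h : ℕ} (hjE : jE.length = h) (hjO : jO.length = h)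
    {pre : List (List α × List α)} (hb : Bal pre) {f L : ℕ} {Y : List (Bool × List α)}
    (hL : Len L Y) (hE : EE Y = 0) (hf : Y.length ≤ f) {K : List α}
    (hK : K ∈ Y.map Prod.snd) (hK0 : K ≠ []) :
    Comb (arr a jE jO (pre ++ dbl f Y)) K := by
  obtain ⟨p, hp, ho⟩ := dbl_occ f hE hf K hK
  have hbal : Bal (pre ++ dbl f Y) := by
    intro q hq
    rcases List.mem_append.1 hq with hq | hq
    · exact hb q hq
    · exact dbl_bal f hL q hq
  have hlen := dbl_bal f hL p hp
  have hKr : K.reverse ≠ [] := by simpa using hK0
  have hp' : p ∈ pre ++ dbl f Y := List.mem_append_right _ hp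
  have hne : p.1 ≠ [] := by
    intro h0
    have h00 : p.2 = [] := List.length_eq_zero_iff.1 (by rw [← hlen, h0]; rfl)
    unfold Occ at ho
    rw [h0, h00] at ho
    simp only [List.infix_nil, List.reverse_eq_nil_iff] at ho
    tauto
  have hc := comb_col hjE hjO (a := a) hbal (A := p.1) (B := p.2) hp' hne
  rcases ho with (ho | ho) | (ho | ho)
  · exact hc.1.sub ho hK0
  · have := (hc.1.sub ho hKr).reverse
    rwa [List.reverse_reverse] at this
  · exact hc.2.sub ho hK0
  · have := (hc.2.sub ho hKr).reverse
    rwa [List.reverse_reverse] at this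

/-- comparison of two colourings of the same combs -/
lemma cmp : ∀ (Y Y' : List (Bool × List α)), Even Y.length → Y.map Prod.snd = Y'.map Prod.snd →
    (un Y = un Y' ∧ (mg Y).map Prod.snd = (mg Y').map Prod.snd ∧ (mg Y = mg Y' → Y = Y')) ∨
    (∃ c A B r r', un Y = c ++ (A, B) :: r ∧ un Y' = c ++ (B, A) :: r') ∨
    (∃ V V', V.reverse ++ V' ∈ (mg Y).map Prod.snd ∧ ((V, V') ∈ un Y' ∨ (V', V) ∈ un Y')) ∨
    (∃ V V', V.reverse ++ V' ∈ (mg Y').map Prod.snd ∧ ((V, V') ∈ un Y ∨ (V', V) ∈ un Y))
  | [], Y', _, hm => by
    have : Y' = [] := by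
      simp only [List.map_nil] at hm
      exact List.map_eq_nil_iff.1 hm.symm
    subst this
    left; simp
  | [_], _, h, _ => by simp at h
  | (b, V) :: (b', V') :: Y, [], _, hm => by simp at hm
  | (b, V) :: (b', V') :: Y, [_], _, hm => by simp at hm
  | (b, V) :: (b', V') :: Y, (c, W) :: (c', W') :: Y', h, hm => by
    have h' : Even Y.length := by
      simp only [List.length_cons] at h
      obtain ⟨r, hr⟩ := h
      exact ⟨r - 1, by omega⟩
    simp only [List.map_cons, List.cons.injEq] at hm
    obtain ⟨rfl, rfl, hm⟩ := hm
    have ih := cmp Y Y' h' hm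
    by_cases hb : b = b'
    · by_cases hc : c = c'
      · -- both equal
        have e1 : un ((b, V) :: (b', V') :: Y) = un Y := by rw [un, if_pos hb]
        have e2 : un ((c, V) :: (c', V') :: Y') = un Y' := by rw [un, if_pos hc]
        have e3 : mg ((b, V) :: (b', V') :: Y) = (b, V.reverse ++ V') :: mg Y := by
          rw [mg, if_pos hb]
        have e4 : mg ((c, V) :: (c', V') :: Y') = (c, V.reverse ++ V') :: mg Y' := by
          rw [mg, if_pos hc]
        rw [e1, e2, e3, e4]
        rcases ih with ⟨i1, i2, i3⟩ | i1 | ⟨X, X', i1, i2⟩ | ⟨X, X', i1, i2⟩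
        · left
          refine ⟨i1, by simp [i2], ?_⟩
          intro he
          simp only [List.cons.injEq, Prod.mk.injEq, and_true] at he
          rw [i3 he.2, ← hb, ← hc, he.1]
        · exact Or.inr (Or.inl i1)
        · exact Or.inr (Or.inr (Or.inl ⟨X, X', by simp only [List.map_cons, List.mem_cons]; exact Or.inr i1, i2⟩))
        · exact Or.inr (Or.inr (Or.inr ⟨X, X', by simp only [List.map_cons, List.mem_cons]; exact Or.inr i1, i2⟩))
      · -- Y equal, Y' unequal
        right; right; left
        refine ⟨V, V', ?_, ?_⟩
        · rw [mg, if_pos hb]; simp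
        · rw [un, if_neg hc]
          by_cases h2 : c = true
          · right; simp [h2]
          · left; simp [h2]
    · by_cases hc : c = c'
      · right; right; right
        refine ⟨V, V', ?_, ?_⟩
        · rw [mg, if_pos hc]; simp
        · rw [un, if_neg hb]
          by_cases h2 : b = true
          · right; simp [h2]
          · left; simp [h2]
      · have e1 : un ((b, V) :: (b', V') :: Y) = (if b then (V', V) else (V, V')) :: un Y := by
          rw [un, if_neg hb]
        have e2 : un ((c, V) :: (c', V') :: Y') = (if c then (V', V) else (V, V')) :: un Y' := by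
          rw [un, if_neg hc]
        have e3 : mg ((b, V) :: (b', V') :: Y) = mg Y := by rw [mg, if_neg hb]
        have e4 : mg ((c, V) :: (c', V') :: Y') = mg Y' := by rw [mg, if_neg hc]
        by_cases hbc : b = c
        · have hbc' : b' = c' := by
            revert hb hc hbc; cases b <;> cases b' <;> cases c <;> cases c' <;> simp
          rw [e1, e2, e3, e4, hbc]
          rcases ih with ⟨i1, i2, i3⟩ | ⟨d, A, B, r, r', i1, i2⟩ | ⟨X, X', i1, i2⟩ | ⟨X, X', i1, i2⟩
          · left
            refine ⟨by rw [i1], i2, ?_⟩
            intro he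
            rw [i3 he, hbc']
          · right; left
            refine ⟨(if c then (V', V) else (V, V')) :: d, A, B, r, r', ?_, ?_⟩
            · rw [i1]; rfl
            · rw [i2]; rfl
          · exact Or.inr (Or.inr (Or.inl ⟨X, X', i1, i2.imp (List.mem_cons_of_mem _) (List.mem_cons_of_mem _)⟩))
          · exact Or.inr (Or.inr (Or.inr ⟨X, X', i1, i2.imp (List.mem_cons_of_mem _) (List.mem_cons_of_mem _)⟩))
        · right; left
          by_cases h2 : b = true
          · have h3 : c = false := by
              cases c
              · rfl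
              · exact absurd h2 hbc
            refine ⟨[], V', V, un Y, un Y', ?_, ?_⟩
            · rw [e1, if_pos h2]; rfl
            · rw [e2, h3]; rfl
          · have h3 : c = true := by
              cases c
              · exact absurd (by simpa using h2) hbc
              · rfl
            refine ⟨[], V, V', un Y, un Y', ?_, ?_⟩
            · rw [e1, if_neg h2]; rfl
            · rw [e2, h3]; rfl

lemma base_cmp {a : α} {jE jO : List α} {h : ℕ} (hjE : jE.length = h) (hjO : jO.length = h) :
    ∀ (f : ℕ) {L : ℕ} (Y Y' : List (Bool × List α)) (pre : List (List α × List α)),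
      h + 1 ≤ L → Len L Y → Y.map Prod.snd = Y'.map Prod.snd → EE Y = 0 → EE Y' = 0 → Y ≠ Y' →
      Y.length ≤ f → Bal pre → (arr a jE jO (pre ++ dbl f Y)).Nodup →
      (arr a jE jO (pre ++ dbl f Y')).Nodup →
      Cyc (2 * h + 3) (arr a jE jO (pre ++ dbl f Y)) (arr a jE jO (pre ++ dbl f Y'))
  | 0, L, Y, Y', pre, _, _, hm, _, _, hne, hf, _, _, _ => by
    exfalso
    have h1 : Y = [] := List.length_eq_zero_iff.1 (by omega)
    subst h1
    apply hne
    exact (List.map_eq_nil_iff.1 hm.symm).symm
  | f + 1, L, Y, Y', pre, hL, hlen, hm, hE, hE', hne, hf, hb, n1, n2 => by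
    have he := even_of_EE hE
    have he' := even_of_EE hE'
    have h3 : EE (mg Y) = 0 := by have := EE_mg Y he; rw [hE] at this; linarith
    have h3' : EE (mg Y') = 0 := by have := EE_mg Y' he'; rw [hE'] at this; linarith
    have h4 := mg_length Y
    have h4' := mg_length Y'
    have hYY : Y.length = Y'.length := by
      have := congrArg List.length hm
      simpa using this
    have hlen' : Len L Y' := by
      intro p hp
      have : p.2 ∈ Y'.map Prod.snd := List.mem_map_of_mem hp
      rw [← hm] at this
      obtain ⟨q, hq, hq2⟩ := List.mem_map.1 this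
      rw [← hq2]
      exact hlen q hq
    have hpos : 0 < Y.length := by
      rcases Nat.eq_zero_or_pos Y.length with h0 | h0
      · exfalso
        have h1 : Y = [] := List.length_eq_zero_iff.1 h0
        have h2 : Y' = [] := List.length_eq_zero_iff.1 (by omega)
        exact hne (by rw [h1, h2])
      · exact h0
    have hbu : Bal (pre ++ un Y) := by
      intro q hq
      rcases List.mem_append.1 hq with hq | hq
      · exact hb q hq
      · have := un_len hlen q hq
        rw [this.1, this.2]
    have hbu' : Bal (pre ++ un Y') := by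
      intro q hq
      rcases List.mem_append.1 hq with hq | hq
      · exact hb q hq
      · have := un_len hlen' q hq
        rw [this.1, this.2]
    have e1 : pre ++ dbl (f + 1) Y = (pre ++ un Y) ++ dbl f (mg Y) := by simp [dbl]
    have e2 : pre ++ dbl (f + 1) Y' = (pre ++ un Y') ++ dbl f (mg Y') := by simp [dbl]
    have hball : Bal (pre ++ dbl (f + 1) Y) := by
      rw [e1]
      intro q hq
      rcases List.mem_append.1 hq with hq | hq
      · exact hbu q hq
      · exact dbl_bal f hlen.mg q hq
    have hball' : Bal (pre ++ dbl (f + 1) Y') := by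
      rw [e2]
      intro q hq
      rcases List.mem_append.1 hq with hq | hq
      · exact hbu' q hq
      · exact dbl_bal f hlen'.mg q hq
    rcases cmp Y Y' he hm with ⟨i1, i2, i3⟩ | ⟨c, A, B, r, r', i1, i2⟩ | ⟨V, V', i1, i2⟩ |
      ⟨V, V', i1, i2⟩
    · rw [e1] at n1 ⊢
      rw [e2, ← i1] at n2 ⊢
      exact base_cmp hjE hjO f (mg Y) (mg Y') (pre ++ un Y) (by omega) hlen.mg i2 h3 h3'
        (fun hq => hne (i3 hq)) (by omega) hbu n1 n2
    · have q1 : pre ++ dbl (f + 1) Y = (pre ++ c) ++ (A, B) :: (r ++ dbl f (mg Y)) := by
        rw [e1, i1]; simp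
      have q2 : pre ++ dbl (f + 1) Y' = (pre ++ c) ++ (B, A) :: (r' ++ dbl f (mg Y')) := by
        rw [e2, i2]; simp
      have hAB := un_len hlen (A, B) (by rw [i1]; simp)
      simp only at hAB
      rw [q1] at n1 hball ⊢
      rw [q2] at n2 ⊢
      refine cyc_swap hjE hjO hball.left (by rw [hAB.1, hAB.2]) ?_ n1 n2
      intro h0
      have := hAB.1
      rw [h0] at this
      simp only [List.length_nil] at this
      omega
    · -- equal in Y, different in Y'
      have hVV : V.length = L ∧ V'.length = L := by
        rcases i2 with i2 | i2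
        · exact un_len hlen' _ i2
        · exact (un_len hlen' _ i2).symm
      refine (cyc_large hjE hjO hball' (V := V) (V' := V') (by omega) (by omega) ?_ n2 n1 ?_).symm
      · rw [e2]
        rcases i2 with i2 | i2
        · left; simp [i2]
        · right; simp [i2]
      · rw [e1]
        refine comb_dbl hjE hjO hbu hlen.mg h3 (by omega) i1 ?_
        intro h0
        have := congrArg List.length h0
        simp only [List.length_append, List.length_reverse, List.length_nil] at this
        omega
    · have hVV : V.length = L ∧ V'.length = L := by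
        rcases i2 with i2 | i2
        · exact un_len hlen _ i2
        · exact (un_len hlen _ i2).symm
      refine cyc_large hjE hjO hball (V := V) (V' := V') (by omega) (by omega) ?_ n1 n2 ?_
      · rw [e1]
        rcases i2 with i2 | i2
        · left; simp [i2]
        · right; simp [i2]
      · rw [e2]
        refine comb_dbl hjE hjO hbu' hlen'.mg h3' (by omega) i1 ?_
        intro h0
        have := congrArg List.length h0
        simp only [List.length_append, List.length_reverse, List.length_nil] at this
        omega

end Pool.Agent.H40OC
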