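import Mathlib

set_option autoImplicit false

namespace Pool.Agent.H40OC

variable {α : Type}

/-- interleave two lists, starting with the first -/
def il : List α → List α → List α
  | [], Y => Y
  | x :: X, Y => x :: il Y X
termination_by X Y => X.length + Y.length

@[simp] lemma il_nil (Y : List α) : il [] Y = Y := by rw [il]
@[simp] lemma il_cons (x : α) (X Y : List α) : il (x :: X) Y = x :: il Y X := by rw [il]

lemma coe_il (X Y : List α) : ((il X Y : List α) : Multiset α) = (X : Multiset α) + Y := by
  fun_induction il X Y with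
  | case1 => simp
  | case2 x X Y ih =>
    rw [← Multiset.cons_coe, ih, ← Multiset.cons_coe, Multiset.cons_add, add_comm]

lemma il_length (X Y : List α) : (il X Y).length = X.length + Y.length := by
  have := congrArg Multiset.card (coe_il X Y)
  simpa using this

lemma mem_il {X Y : List α} {z : α} : z ∈ il X Y ↔ z ∈ X ∨ z ∈ Y := by
  rw [← Multiset.mem_coe, coe_il]; simp

lemma il_append : ∀ (X Y P Q : List α), X.length = Y.length →
    il (X ++ P) (Y ++ Q) = il X Y ++ il P Q
  | [], [], P, Q, _ => by simp
  | x :: X, y :: Y, P, Q, h => by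
    simp only [List.length_cons, Nat.add_right_cancel_iff] at h
    simp [il_append X Y P Q h]
  | [], _ :: _, _, _, h => by simp at h
  | _ :: _, [], _, _, h => by simp at h

/-- the path `a, s, b` is a segment of the path `l` -/
def Seg (l : List α) (a : α) (s : List α) (b : α) : Prop :=
  (a :: (s ++ [b])) <:+: l ∨ (b :: (s.reverse ++ [a])) <:+: l

/-- adjacency in a path given as a list -/
def E (l : List α) (a b : α) : Prop := Seg l a [] b

lemma E_iff {l : List α} {a b : α} : E l a b ↔ [a, b] <:+: l ∨ [b, a] <:+: l := by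
  simp [E, Seg]

lemma Seg.symm {l : List α} {a b : α} {s : List α} (h : Seg l a s b) : Seg l b s.reverse a := by
  unfold Seg at *
  rw [List.reverse_reverse]
  exact h.symm

lemma E.symm {l : List α} {a b : α} (h : E l a b) : E l b a := Seg.symm h

lemma Seg.mono {l m : List α} {a b : α} {s : List α} (hlm : l <:+: m) (h : Seg l a s b) :
    Seg m a s b :=
  h.imp (fun h => h.trans hlm) (fun h => h.trans hlm)

/-- adjacency in the union of two paths -/
def Adj2 (l l' : List α) (a b : α) : Prop := E l a b ∨ E l' a b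

lemma Adj2.symm {l l' : List α} {a b : α} (h : Adj2 l l' a b) : Adj2 l l' b a :=
  h.imp E.symm E.symm

/-- the union of the two paths contains a cycle of length `m` -/
def Cyc (m : ℕ) (l l' : List α) : Prop :=
  3 ≤ m ∧ ∃ a s, (a :: s).length = m ∧ (a :: s).Nodup ∧
    List.IsChain (Adj2 l l') (a :: (s ++ [a]))

lemma Cyc.mono {m : ℕ} {l l' k k' : List α} (h1 : l <:+: k) (h2 : l' <:+: k') (h : Cyc m l l') :
    Cyc m k k' := by
  obtain ⟨h3, a, s, q1, q2, q3⟩ := h
  exact ⟨h3, a, s, q1, q2, q3.imp (fun x y h => h.imp (Seg.mono h1) (Seg.mono h2))⟩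

lemma Cyc.symm {m : ℕ} {l l' : List α} (h : Cyc m l l') : Cyc m l' l := by
  obtain ⟨h3, a, s, q1, q2, q3⟩ := h
  exact ⟨h3, a, s, q1, q2, q3.imp (fun x y h => Or.symm h)⟩

lemma isChain_E_infix : ∀ (k : List α) {l : List α}, k <:+: l → List.IsChain (E l) k
  | [], _, _ => List.isChain_nil
  | [_], _, _ => List.isChain_singleton _
  | a :: b :: k, l, h => by
    rw [List.isChain_cons_cons]
    refine ⟨?_, isChain_E_infix (b :: k) ((List.suffix_cons a _).isInfix.trans h)⟩
    rw [E_iff]
    exact Or.inl ((List.prefix_append [a, b] k).isInfix.trans h)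

lemma Seg.chain {l : List α} {a b : α} {s : List α} (h : Seg l a s b) :
    List.IsChain (E l) (a :: (s ++ [b])) := by
  rcases h with h | h
  · exact isChain_E_infix _ h
  · have := isChain_E_infix _ h
    have h2 : (b :: (s.reverse ++ [a])) = (a :: (s ++ [b])).reverse := by simp
    rw [h2, List.isChain_reverse] at this
    exact this.imp (fun x y h => h.symm)

lemma Seg.nodup {l : List α} {a b : α} {s : List α} (hl : l.Nodup) (h : Seg l a s b) :
    (a :: (s ++ [b])).Nodup := by
  rcases h with h | h
  · exact h.sublist.nodup hl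
  · have := h.sublist.nodup hl
    have h2 : (b :: (s.reverse ++ [a])) = (a :: (s ++ [b])).reverse := by simp
    rw [h2, List.nodup_reverse] at this
    exact this

/-- a segment of one path and a segment of the other path with the same ends and disjoint
interiors form a cycle -/
lemma cyc_of_segs {m : ℕ} {l l' : List α} (hl : l.Nodup) (hl' : l'.Nodup) {a b : α}
    {s t : List α} (h : Seg l a s b) (h' : Seg l' a t b) (hd : ∀ x ∈ s, x ∉ t)
    (hm : s.length + t.length + 2 = m) (h3 : 3 ≤ m) : Cyc m l l' := by
  refine ⟨h3, a, s ++ b :: t.reverse, ?_, ?_, ?_⟩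
  · simp; omega
  · have n1 := h.nodup hl
    have n2 := h'.nodup hl'
    simp only [List.nodup_cons, List.mem_append, List.mem_cons, List.not_mem_nil, or_false,
      not_or, List.nodup_append, List.mem_reverse, List.nodup_reverse] at n1 n2 ⊢
    obtain ⟨⟨a1, a2⟩, a3, a4, a5⟩ := n1
    obtain ⟨⟨b1, b2⟩, b3, b4, b5⟩ := n2
    refine ⟨⟨a1, a2, b1⟩, a3, ⟨?_, b3⟩, ?_⟩
    · intro hb
      exact b5 b hb b rfl rfl
    · intro x hx y hy hxy
      subst hxy
      rcases hy with rfl | hy
      · exact a5 x hx x rfl rfl
      · exact hd x hx hy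
  · have c1 := h.chain
    have c2 := h'.symm.chain
    have e : a :: (s ++ b :: t.reverse ++ [a]) = (a :: s) ++ b :: (t.reverse ++ [a]) := by simp
    rw [e, List.isChain_split]
    refine ⟨?_, ?_⟩
    · exact c1.imp (fun x y h => Or.inl h)
    · exact c2.imp (fun x y h => Or.inr h)

/-- `K` occurs in `l` (in this or the reversed order) with exactly one vertex between
consecutive entries -/
def Comb (l K : List α) : Prop :=
  ∃ M, M.length + 1 = K.length ∧ (il K M <:+: l ∨ il K.reverse M <:+: l)

lemma Comb.reverse {l K : List α} (h : Comb l K) : Comb l K.reverse := by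
  obtain ⟨M, h1, h2⟩ := h
  exact ⟨M, by simpa using h1, by rw [List.reverse_reverse]; exact h2.symm⟩

lemma Comb.mono {l m K : List α} (hlm : l <:+: m) (h : Comb l K) : Comb m K := by
  obtain ⟨M, h1, h2⟩ := h
  exact ⟨M, h1, h2.imp (fun h => h.trans hlm) (fun h => h.trans hlm)⟩

lemma split3 {M : List α} (p r q : ℕ) (h : M.length = p + r + q) :
    ∃ M1 M2 M3, M = M1 ++ (M2 ++ M3) ∧ M1.length = p ∧ M2.length = r ∧ M3.length = q := by
  refine ⟨M.take p, (M.drop p).take r, (M.drop p).drop r, by simp, ?_, ?_, ?_⟩ <;>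
  · simp; omega

/-- infix version of combs -/
lemma il_infix {P K Q M : List α} (hK : K ≠ []) (hM : M.length + 1 = (P ++ K ++ Q).length) :
    ∃ M', M'.length + 1 = K.length ∧ il K M' <:+: il (P ++ K ++ Q) M := by
  have hK' : 0 < K.length := List.length_pos_iff.2 hK
  simp only [List.length_append] at hM
  obtain ⟨M1, M2, M3, rfl, l1, l2, l3⟩ := split3 (M := M) P.length (K.length - 1) Q.length (by omega)
  refine ⟨M2, by omega, ?_⟩
  rw [List.append_assoc, il_append _ _ _ _ l1.symm]
  refine List.IsInfix.trans ?_ (List.suffix_append _ _).isInfix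
  -- write K = K' ++ [x]
  obtain ⟨K', x, rfl⟩ : ∃ K' x, K = K' ++ [x] := ⟨K.dropLast, K.getLast hK, (List.dropLast_append_getLast hK).symm⟩
  simp only [List.length_append, List.length_singleton, Nat.add_sub_cancel] at l2
  rw [List.append_assoc, il_append _ _ _ _ l2.symm]
  have e : il (K' ++ [x]) M2 = il K' M2 ++ [x] := by
    have := il_append K' M2 [x] [] l2.symm
    simpa using this
  rw [e]
  simp only [List.cons_append, List.nil_append, il_cons]
  exact ⟨[], il M3 Q, by simp⟩

lemma Comb.sub {l K K' : List α} (h : Comb l K) (hs : K' <:+: K) (hK : K' ≠ []) : Comb l K' := by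
  obtain ⟨M, h1, h2⟩ := h
  obtain ⟨P, Q, rfl⟩ := hs
  rcases h2 with h2 | h2
  · obtain ⟨M', a1, a2⟩ := il_infix (P := P) (K := K') (Q := Q) (M := M) hK h1
    exact ⟨M', a1, Or.inl (a2.trans h2)⟩
  · have e : (P ++ K' ++ Q).reverse = Q.reverse ++ K'.reverse ++ P.reverse := by simp
    rw [e] at h2
    obtain ⟨M', a1, a2⟩ := il_infix (P := Q.reverse) (K := K'.reverse) (Q := P.reverse) (M := M)
      (by simpa using hK) (by simp only [List.length_append, List.length_reverse] at h1 ⊢; omega)
    exact ⟨M', by simpa using a1, Or.inr (a2.trans h2)⟩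

/-- entries of a comb are joined by segments of even length -/
lemma Comb.seg {l P R Q : List α} {a b : α} (h : Comb l (P ++ a :: (R ++ b :: Q))) :
    ∃ M, M.length = R.length + 1 ∧ (Seg l a (il M R) b ∨ Seg l b (il M R.reverse) a) := by
  have hs : (a :: (R ++ [b])) <:+: (P ++ a :: (R ++ b :: Q)) := ⟨P, Q, by simp⟩
  obtain ⟨M, h1, h2⟩ := h.sub hs (by simp)
  simp only [List.length_cons, List.length_append, List.length_nil, zero_add,
    Nat.add_right_cancel_iff] at h1
  refine ⟨M, h1, ?_⟩
  have key : ∀ (a b : α) (R : List α), M.length = R.length + 1 →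
      il (a :: (R ++ [b])) M = a :: (il M R ++ [b]) := by
    intro a b R hR
    rw [il_cons]
    obtain ⟨M', m, rfl⟩ : ∃ M' m, M = M' ++ [m] := by
      have : M ≠ [] := by
        intro h0; rw [h0] at hR; simp at hR
      exact ⟨M.dropLast, M.getLast this, (List.dropLast_append_getLast this).symm⟩
    simp only [List.length_append, List.length_singleton, Nat.add_right_cancel_iff] at hR
    rw [il_append _ _ _ _ hR]
    have := il_append M' R [m] [] hR
    simp only [List.append_nil] at this
    rw [this]
    simp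
  rcases h2 with h2 | h2
  · left
    rw [key a b R h1] at h2
    exact Or.inl h2
  · right
    have e : (a :: (R ++ [b])).reverse = b :: (R.reverse ++ [a]) := by simp
    rw [e, key b a R.reverse (by simpa using h1)] at h2
    exact Or.inl h2

lemma Comb.notMem {l P R Q : List α} {a b : α} (hl : l.Nodup)
    (h : Comb l (P ++ a :: (R ++ b :: Q))) :
    ∃ M, M.length = R.length + 1 ∧ (Seg l a (il M R) b ∨ Seg l b (il M R.reverse) a) ∧
      ∀ x ∈ M, x ∉ P ++ a :: (R ++ b :: Q) := by
  obtain ⟨M, h1, h2⟩ := h
  have hnd : ∀ x ∈ M, x ∉ P ++ a :: (R ++ b :: Q) := by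
    intro x hx hx'
    rcases h2 with h2 | h2
    · have hn := h2.sublist.nodup hl
      rw [← Multiset.coe_nodup, coe_il, Multiset.nodup_add] at hn
      exact (Multiset.disjoint_left.1 hn.2.2) (Multiset.mem_coe.2 hx') (Multiset.mem_coe.2 hx)
    · have hn := h2.sublist.nodup hl
      rw [← Multiset.coe_nodup, coe_il, Multiset.nodup_add] at hn
      exact (Multiset.disjoint_left.1 hn.2.2)
        (Multiset.mem_coe.2 (List.mem_reverse.2 hx')) (Multiset.mem_coe.2 hx)
  -- the segment, keeping track of the entries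
  have key : ∀ (P Q R M : List α) (a b : α), M.length + 1 = (P ++ a :: (R ++ b :: Q)).length →
      ∃ M', M'.length = R.length + 1 ∧ M' ⊆ M ∧
        (a :: (il M' R ++ [b])) <:+: il (P ++ a :: (R ++ b :: Q)) M := by
    intro P Q R M a b hM
    simp only [List.length_append, List.length_cons] at hM
    obtain ⟨M1, M2, M3, rfl, l1, l2, l3⟩ := split3 (M := M) P.length (R.length + 1) Q.length
      (by omega)
    refine ⟨M2, l2, ?_, ?_⟩
    · intro x hx; simp [hx]
    · rw [il_append _ _ _ _ l1.symm]
      refine List.IsInfix.trans ?_ (List.suffix_append _ _).isInfix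
      have e : a :: (R ++ b :: Q) = (a :: R) ++ (b :: Q) := by simp
      rw [e, il_append _ _ _ _ (by simpa using l2.symm), il_cons, il_cons]
      exact ⟨[], il M3 Q, by simp⟩
  rcases h2 with h2 | h2
  · obtain ⟨M', a1, a2, a3⟩ := key P Q R M a b h1
    exact ⟨M', a1, Or.inl (Or.inl (a3.trans h2)), fun x hx => hnd x (a2 hx)⟩
  · have e : (P ++ a :: (R ++ b :: Q)).reverse =
        Q.reverse ++ b :: (R.reverse ++ a :: P.reverse) := by simp
    rw [e] at h2
    obtain ⟨M', a1, a2, a3⟩ := key Q.reverse P.reverse R.reverse M b a (by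
      rw [← e, List.length_reverse]; exact h1)
    exact ⟨M', by simpa using a1, Or.inr (Or.inl (a3.trans h2)), fun x hx => hnd x (a2 hx)⟩

end Pool.Agent.H40OC
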