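import Pool.Agent.H40.OC.Basic

set_option autoImplicit false

namespace Pool.Agent.H40OC

/-- the graph of a list -/
def gr {V : Type} (l : List V) : SimpleGraph V where
  Adj a b := a ≠ b ∧ E l a b
  symm := ⟨fun _ _ h => ⟨h.1.symm, h.2.symm⟩⟩
  loopless := ⟨fun _ h => h.1 rfl⟩

lemma E_getElem {V : Type} {l : List V} (hl : l.Nodup) {i j : ℕ} (hi : i < l.length)
    (hj : j < l.length) : E l l[i] l[j] ↔ i + 1 = j ∨ j + 1 = i := by
  have key : ∀ {i j : ℕ} (hi : i < l.length) (hj : j < l.length),
      [l[i], l[j]] <:+: l ↔ i + 1 = j := by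
    intro i j hi hj
    constructor
    · rintro ⟨s, t, h⟩
      have h1 : (s ++ [l[i], l[j]] ++ t)[s.length]? = some l[i] := by simp
      have h2 : (s ++ [l[i], l[j]] ++ t)[s.length + 1]? = some l[j] := by simp
      rw [h] at h1 h2
      have e1 := (List.getElem?_eq_some_iff.1 h1)
      have e2 := (List.getElem?_eq_some_iff.1 h2)
      obtain ⟨q1, e1⟩ := e1
      obtain ⟨q2, e2⟩ := e2
      have := (List.Nodup.getElem_inj_iff hl).1 e1
      have := (List.Nodup.getElem_inj_iff hl).1 e2
      omega
    · rintro rfl
      refine ⟨l.take i, l.drop (i + 2), ?_⟩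
      conv_rhs => rw [← List.take_append_drop i l]
      rw [List.append_assoc]
      congr 1
      rw [List.drop_eq_getElem_cons hi, List.drop_eq_getElem_cons hj]
      simp
  rw [E_iff, key hi hj, key hj hi]

lemma E.mem {V : Type} {l : List V} {a b : V} (h : E l a b) : a ∈ l ∧ b ∈ l := by
  rw [E_iff] at h
  rcases h with h | h
  · exact ⟨h.subset (by simp), h.subset (by simp)⟩
  · exact ⟨h.subset (by simp), h.subset (by simp)⟩

lemma gr_iso {n : ℕ} {l : List (Fin n)} (hl : l.Nodup) (hlen : l.length = n) :
    Nonempty (SimpleGraph.pathGraph n ≃g gr l) := by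
  let φ : Fin n → Fin n := fun i => l[i.1]'(by omega)
  have hinj : Function.Injective φ := by
    intro i j hij
    exact Fin.ext ((List.Nodup.getElem_inj_iff hl).1 hij)
  have hbij : Function.Bijective φ := Finite.injective_iff_bijective.1 hinj
  refine ⟨⟨Equiv.ofBijective φ hbij, ?_⟩⟩
  intro i j
  simp only [Equiv.ofBijective_apply, SimpleGraph.pathGraph_adj, gr]
  constructor
  · rintro ⟨_, h⟩
    exact (E_getElem hl _ _).1 h
  · intro h
    refine ⟨?_, (E_getElem hl _ _).2 h⟩
    intro he
    have := congrArg Fin.val (hinj he)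
    omega

/-- parity of the position in a path -/
def par {V : Type} [DecidableEq V] (l : List V) (x : V) : Bool := (l.idxOf x) % 2 = 0

lemma par_E {V : Type} [DecidableEq V] {l : List V} (hl : l.Nodup) {a b : V} (h : E l a b) :
    par l a ≠ par l b := by
  obtain ⟨ha, hb⟩ := h.mem
  obtain ⟨i, hi, rfl⟩ := List.mem_iff_getElem.1 ha
  obtain ⟨j, hj, rfl⟩ := List.mem_iff_getElem.1 hb
  rw [E_getElem hl hi hj] at h
  unfold par
  rw [List.Nodup.idxOf_getElem hl, List.Nodup.idxOf_getElem hl]
  intro he
  rw [decide_eq_decide] at he
  omega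

lemma chain_par {V : Type} {c : V → Bool} : ∀ (t : List V) (a b : V),
    List.IsChain (fun x y => c x ≠ c y) (a :: (t ++ [b])) →
    (Odd t.length → c a = c b) ∧ (Even t.length → c a ≠ c b)
  | [], a, b, h => by
    simp only [List.nil_append, List.isChain_cons_cons, List.isChain_singleton, and_true] at h
    exact ⟨fun h' => by simp at h', fun _ => h⟩
  | x :: t, a, b, h => by
    rw [List.cons_append, List.isChain_cons_cons] at h
    have ih := chain_par t x b h.2
    have h1 := h.1
    simp only [List.length_cons, Nat.odd_add_one, Nat.even_add_one, Nat.not_odd_iff_even,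
      Nat.not_even_iff_odd]
    constructor
    · intro he
      have := ih.2 he
      revert this h1
      cases c a <;> cases c x <;> cases c b <;> simp
    · intro ho
      have := ih.1 ho
      rw [← this]
      exact h1

lemma isChain_conj {V : Type} {R S : V → V → Prop} : ∀ (l : List V), List.IsChain R l →
    List.IsChain S l → List.IsChain (fun x y => R x y ∧ S x y) l
  | [], _, _ => List.isChain_nil
  | [_], _, _ => List.isChain_singleton _
  | a :: b :: l, h1, h2 => by
    rw [List.isChain_cons_cons] at h1 h2 ⊢
    exact ⟨⟨h1.1, h2.1⟩, isChain_conj _ h1.2 h2.2⟩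

/-- a path has no odd cycle, so odd-cycle-different paths are different graphs -/
lemma gr_ne {V : Type} {l l' : List V} (hl : l.Nodup) {h : ℕ} (hc : Cyc (2 * h + 3) l l') :
    gr l ≠ gr l' := by
  classical
  intro heq
  obtain ⟨-, a, s, h1, h2, h3⟩ := hc
  -- every step is an edge of `l`
  have hstep : ∀ x y, x ≠ y → Adj2 l l' x y → par l x ≠ par l y := by
    intro x y hne h
    rcases h with h | h
    · exact par_E hl h
    · have : (gr l').Adj x y := ⟨hne, h⟩
      rw [← heq] at this
      exact par_E hl this.2
  have hch : List.IsChain (fun x y => par l x ≠ par l y) (a :: (s ++ [a])) := by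
    have hne : List.IsChain (fun x y => x ≠ y) (a :: (s ++ [a])) := by
      obtain ⟨s', z, rfl⟩ : ∃ s' z, s = s' ++ [z] := by
        have : s ≠ [] := by
          intro h0; rw [h0] at h1; simp at h1
        exact ⟨s.dropLast, s.getLast this, (List.dropLast_append_getLast this).symm⟩
      have e : a :: (s' ++ [z] ++ [a]) = (a :: s') ++ z :: [a] := by simp
      rw [e, List.isChain_split]
      constructor
      · have h4 : ((a :: s') ++ [z]).Nodup := by simpa using h2
        exact (List.nodup_iff_pairwise_ne.1 h4).isChain
      · simp only [List.isChain_cons_cons, List.isChain_singleton, and_true]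
        intro hz
        subst hz
        simp at h2
    have := isChain_conj _ h3 hne
    exact this.imp (fun x y h => hstep x y h.2 h.1)
  have := (chain_par s a a hch).2 ⟨h + 1, by simp only [List.length_cons] at h1; omega⟩
  exact this rfl

/-- a cycle in the union of two paths gives a cycle of the union graph -/
lemma cyc_walk {V : Type} {l l' : List V} {m : ℕ} (hc : Cyc m l l') :
    ∃ v : V, ∃ w : (gr l ⊔ gr l').Walk v v, w.IsCycle ∧ w.length = m := by
  obtain ⟨hm, a, s, h1, h2, h3⟩ := hc
  obtain ⟨s', z, rfl⟩ : ∃ s' z, s = s' ++ [z] := by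
    have : s ≠ [] := by
      intro h0; rw [h0] at h1; simp at h1; omega
    exact ⟨s.dropLast, s.getLast this, (List.dropLast_append_getLast this).symm⟩
  have e : a :: (s' ++ [z] ++ [a]) = (a :: s') ++ z :: [a] := by simp
  rw [e, List.isChain_split] at h3
  obtain ⟨h4, h5⟩ := h3
  have key : ∀ (t : List V) (x y : V), (x :: (t ++ [y])).Nodup →
      List.IsChain (Adj2 l l') (x :: (t ++ [y])) →
      ∃ w : (gr l ⊔ gr l').Walk x y, w.support = x :: (t ++ [y]) := by
    intro t
    induction t with
    | nil =>
      intro x y hn hch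
      simp only [List.nil_append, List.isChain_cons_cons, List.isChain_singleton, and_true] at hch
      have hne : x ≠ y := by
        intro h; subst h; simp at hn
      have hadj : (gr l ⊔ gr l').Adj x y := by
        rw [SimpleGraph.sup_adj]
        exact hch.imp (fun h => ⟨hne, h⟩) (fun h => ⟨hne, h⟩)
      exact ⟨.cons hadj .nil, by simp⟩
    | cons u t ih =>
      intro x y hn hch
      rw [List.cons_append, List.isChain_cons_cons] at hch
      have hne : x ≠ u := by
        intro h; subst h; simp at hn
      have hadj : (gr l ⊔ gr l').Adj x u := by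
        rw [SimpleGraph.sup_adj]
        exact hch.1.imp (fun h => ⟨hne, h⟩) (fun h => ⟨hne, h⟩)
      obtain ⟨w, hw⟩ := ih u y (by
        rw [List.cons_append, List.nodup_cons] at hn
        exact hn.2) hch.2
      exact ⟨.cons hadj w, by simp [hw]⟩
  have hn : (a :: (s' ++ [z])).Nodup := h2
  obtain ⟨w, hw⟩ := key s' a z hn (by simpa using h4)
  have hza : a ≠ z := by
    intro h; subst h; simp at hn
  have hadj : (gr l ⊔ gr l').Adj z a := by
    simp only [List.isChain_cons_cons, List.isChain_singleton, and_true] at h5
    rw [SimpleGraph.sup_adj]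
    exact h5.imp (fun h => ⟨hza.symm, h⟩) (fun h => ⟨hza.symm, h⟩)
  have hwp : w.IsPath := by
    rw [SimpleGraph.Walk.isPath_def, hw]
    exact hn
  have hlen : w.length + 1 = m := by
    have := w.length_support
    rw [hw] at this
    rw [← h1]
    simp only [List.length_cons, List.length_append] at this ⊢
    omega
  refine ⟨z, .cons hadj w, ?_, by simpa using hlen⟩
  rw [SimpleGraph.Walk.cons_isCycle_iff]
  refine ⟨hwp, ?_⟩
  intro hmem
  -- the closing edge is not in the path
  cases w with
  | nil => exact hza rfl
  | cons hadj' w' =>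
    rename_i u
    simp only [SimpleGraph.Walk.edges_cons, List.mem_cons] at hmem
    rw [SimpleGraph.Walk.cons_isPath_iff] at hwp
    rcases hmem with hmem | hmem
    · rw [Sym2.eq_iff] at hmem
      have huz : u = z := by
        rcases hmem with ⟨h6, h7⟩ | ⟨h6, h7⟩
        · exact absurd h6.symm hza
        · exact h6.symm
      subst huz
      have hw0 : w' = .nil := by
        cases w' with
        | nil => rfl
        | cons hh ww =>
          exfalso
          have := hwp.1
          rw [SimpleGraph.Walk.cons_isPath_iff] at this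
          exact this.2 ww.end_mem_support
      subst hw0
      simp at hlen
      omega
    · exact hwp.2 (SimpleGraph.Walk.snd_mem_support_of_mem_edges _ hmem)

end Pool.Agent.H40OC
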