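import Pool.Agent.H40.OC.Step
import Pool.Agent.H40.OC.Graph

set_option autoImplicit false

namespace Pool.Agent.H40OC

lemma four_pow_le (N : ℕ) : 4 ^ N ≤ (2 * N + 1) * N.centralBinom := by
  rcases Nat.eq_zero_or_pos N with rfl | hN
  · simp
  · refine (Nat.four_pow_le_two_mul_self_mul_centralBinom N hN).trans ?_
    exact Nat.mul_le_mul_right _ (by omega)

lemma card_SS (N : ℕ) : Fintype.card (SS N) = N.centralBinom := by
  rw [Fintype.card_finset_len, Fintype.card_fin, Nat.centralBinom]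

lemma card_base (q : ℕ) :
    q.centralBinom ≤ Fintype.card {b : Fin (2 * q) → Bool // (∑ i, sg (b i)) = 0} := by
  classical
  rw [← card_SS q]
  have hbal : ∀ S : SS q, ∑ i, sg (decide (i ∈ S.1)) = 0 := by
    intro S
    have e : ∀ i : Fin (2 * q), sg (decide (i ∈ S.1)) = 2 * (if i ∈ S.1 then (1 : ℤ) else 0) - 1 := by
      intro i
      by_cases hi : i ∈ S.1 <;> simp [sg, hi]
    simp only [e]
    rw [Finset.sum_sub_distrib, ← Finset.mul_sum, Finset.sum_ite_mem, Finset.univ_inter]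
    simp [S.2]
  refine Fintype.card_le_of_injective
    (fun S => (⟨fun i => decide (i ∈ S.1), hbal S⟩ :
      {b : Fin (2 * q) → Bool // (∑ i, sg (b i)) = 0})) ?_
  intro S S' he
  apply Subtype.ext
  ext i
  have := congrFun (congrArg Subtype.val he) i
  simpa using this

theorem exists_code (h : ℕ) : ∀ (t L : ℕ), 1 ≤ L → h + 1 ≤ 2 ^ t * L →
    ∃ A B K : ℕ, ∀ q : ℕ, ∃ (ι κ δ : Type) (_ : Fintype ι) (_ : Fintype κ) (_ : Fintype δ),
      Fintype.card ι = (4 * (h + 1)) ^ t * (2 * q) ∧ Fintype.card κ = K ∧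
      2 ^ (Fintype.card ι) ≤ (A * (q + 1)) ^ B * Fintype.card δ ∧ Code h L ι κ δ
  | 0, L, _, hL => by
    refine ⟨2, 1, 1 + (h + h), fun q => ⟨Fin (2 * q), JT h,
      {b : Fin (2 * q) → Bool // (∑ i, sg (b i)) = 0}, inferInstance, inferInstance,
      inferInstance, by simp, by simp, ?_, code_base h L q (by simpa using hL)⟩⟩
    rw [Fintype.card_fin, pow_mul, pow_one]
    calc (2 ^ 2) ^ q = 4 ^ q := by norm_num
      _ ≤ (2 * q + 1) * q.centralBinom := four_pow_le q
      _ ≤ _ := Nat.mul_le_mul (by omega) (card_base q)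
  | t + 1, L, hL1, hL => by
    obtain ⟨A, B, K, hABK⟩ := exists_code h t (2 * L) (by omega) (by
      rw [pow_succ] at hL
      calc h + 1 ≤ 2 ^ t * 2 * L := hL
        _ = 2 ^ t * (2 * L) := by ring)
    refine ⟨A + (4 * (h + 1)) ^ (t + 1), (1 + B) * (h + 1), (1 + (h + h)) + (h + 1) * K,
      fun q => ?_⟩
    obtain ⟨ι, κ, δ, fι, fκ, fδ, c1, c2, c3, hcode⟩ := hABK q
    set N := (4 * (h + 1)) ^ t * (2 * q) with hN
    refine ⟨Fin (h + 1) × Fin (2 * N) × Bool, JT h ⊕ (Fin (h + 1) × κ),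
      Fin (h + 1) → SS N × (Fin N → Bool) × δ, inferInstance, inferInstance,
      inferInstance, ?_, ?_, ?_, code_step c1 hL1 hcode⟩
    · simp only [Fintype.card_prod, Fintype.card_fin, Fintype.card_bool]
      rw [hN]; ring
    · simp only [Fintype.card_sum, Fintype.card_prod, Fintype.card_fin, Fintype.card_unit, c2]
    · have e1 : Fintype.card (Fin (h + 1) × Fin (2 * N) × Bool) = 4 * N * (h + 1) := by
        simp only [Fintype.card_prod, Fintype.card_fin, Fintype.card_bool]
        ring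
      have e2 : Fintype.card (Fin (h + 1) → SS N × (Fin N → Bool) × δ) =
          (N.centralBinom * (2 ^ N * Fintype.card δ)) ^ (h + 1) := by
        rw [Fintype.card_fun, Fintype.card_prod, Fintype.card_prod, Fintype.card_fun, card_SS]
        simp
      rw [e1, e2, pow_mul]
      rw [c1] at c3
      have h1 : 2 * N + 1 ≤ (A + (4 * (h + 1)) ^ (t + 1)) * (q + 1) := by
        have h2 : 0 < (4 * (h + 1)) ^ t := Nat.pow_pos (by omega)
        have h3 : (4 * (h + 1)) ^ (t + 1) = (4 * (h + 1)) ^ t * (4 * (h + 1)) := pow_succ _ _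
        rw [h3, hN]
        nlinarith [Nat.zero_le (A * (q + 1)), Nat.zero_le ((4 * (h + 1)) ^ t * h * q),
          Nat.zero_le ((4 * (h + 1)) ^ t * h)]
      have h4 : 2 ^ (4 * N) ≤ ((A + (4 * (h + 1)) ^ (t + 1)) * (q + 1)) ^ (1 + B) *
          (N.centralBinom * (2 ^ N * Fintype.card δ)) := by
        have h5 : 2 ^ (4 * N) = 4 ^ N * (2 ^ N * 2 ^ N) := by
          rw [show (4 : ℕ) = 2 ^ 2 by norm_num, ← pow_mul, ← pow_add, ← pow_add]
          congr 1; ring
        rw [h5]
        calc 4 ^ N * (2 ^ N * 2 ^ N)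
            ≤ ((2 * N + 1) * N.centralBinom) * (2 ^ N * ((A * (q + 1)) ^ B * Fintype.card δ)) :=
              Nat.mul_le_mul (four_pow_le N) (Nat.mul_le_mul_left _ c3)
          _ ≤ (((A + (4 * (h + 1)) ^ (t + 1)) * (q + 1)) * N.centralBinom) *
              (2 ^ N * (((A + (4 * (h + 1)) ^ (t + 1)) * (q + 1)) ^ B * Fintype.card δ)) := by
              refine Nat.mul_le_mul (Nat.mul_le_mul_right _ h1) (Nat.mul_le_mul_left _ ?_)
              refine Nat.mul_le_mul_right _ (Nat.pow_le_pow_left ?_ _)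
              exact Nat.mul_le_mul_right _ (by omega)
          _ = _ := by rw [pow_add, pow_one]; ring
      calc (2 ^ (4 * N)) ^ (h + 1) ≤ (((A + (4 * (h + 1)) ^ (t + 1)) * (q + 1)) ^ (1 + B) *
          (N.centralBinom * (2 ^ N * Fintype.card δ))) ^ (h + 1) := Nat.pow_le_pow_left h4 _
        _ = _ := by rw [mul_pow, ← pow_mul]

/-- from codes to families of Hamiltonian paths -/
lemma family_of_code {h n : ℕ} {ι κ δ : Type} [Fintype ι] [Fintype κ] [Fintype δ]
    (hc : Code h 1 ι κ δ) (hn : Fintype.card ι + Fintype.card κ ≤ n) :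
    ∃ F : Finset (SimpleGraph (Fin n)), F.card = Fintype.card δ ∧
      (∀ P ∈ F, Nonempty (SimpleGraph.pathGraph n ≃g P)) ∧
      (F : Set (SimpleGraph (Fin n))).Pairwise
        (fun P Q => ∃ v : Fin n, ∃ w : (P ⊔ Q).Walk v v, w.IsCycle ∧ w.length = 2 * h + 3) := by
  classical
  obtain ⟨φ⟩ : Nonempty ((ι ⊕ κ) ↪ Fin n) :=
    Function.Embedding.nonempty_of_card_le (by simpa using hn)
  have hsum : ∑ i, (([φ (Sum.inl i)] : List (Fin n)) : Multiset (Fin n)) +
      ∑ j, ({φ (Sum.inr j)} : Multiset (Fin n)) = (Finset.univ.map φ).val := by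
    have e1 : ∑ x, ({φ x} : Multiset (Fin n)) = (Finset.univ.map φ).val := by
      rw [← Finset.sum_multiset_singleton (Finset.univ.map φ), Finset.sum_map]
    rw [← e1, Fintype.sum_sum_type]
    simp
  obtain ⟨W, w1, -, w3⟩ := hc (Fin n) (fun i => [φ (Sum.inl i)]) (fun j => φ (Sum.inr j))
    (fun i => rfl) (by rw [hsum]; exact (Finset.univ.map φ).nodup)
  set tail : List (Fin n) := ((Finset.univ.map φ)ᶜ).toList with htail
  have hall : ∀ d, ((W d ++ tail : List (Fin n)) : Multiset (Fin n)) =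
      (Finset.univ : Finset (Fin n)).val := by
    intro d
    rw [← Multiset.coe_add, w1, hsum, htail, Finset.coe_toList]
    rw [← Finset.disjUnion_val _ _ (disjoint_compl_right)]
    congr 1
    rw [Finset.disjUnion_eq_union, Finset.union_compl]
  have hnd : ∀ d, (W d ++ tail).Nodup := by
    intro d
    rw [← Multiset.coe_nodup, hall]
    exact Finset.univ.nodup
  have hlen : ∀ d, (W d ++ tail).length = n := by
    intro d
    have := congrArg Multiset.card (hall d)
    simpa using this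
  have hcyc : ∀ d d', d ≠ d' → Cyc (2 * h + 3) (W d ++ tail) (W d' ++ tail) := by
    intro d d' hne
    exact (w3 d d' hne).mono (List.prefix_append _ _).isInfix (List.prefix_append _ _).isInfix
  refine ⟨Finset.univ.image (fun d => gr (W d ++ tail)), ?_, ?_, ?_⟩
  · rw [Finset.card_image_of_injective, Finset.card_univ]
    intro d d' he
    by_contra hne
    exact gr_ne (hnd d) (hcyc d d' hne) he
  · intro P hP
    obtain ⟨d, -, rfl⟩ := Finset.mem_image.1 hP
    exact gr_iso (hnd d) (hlen d)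
  · intro P hP Q hQ hne
    obtain ⟨d, -, rfl⟩ := Finset.mem_image.1 (Finset.mem_coe.1 hP)
    obtain ⟨d', -, rfl⟩ := Finset.mem_image.1 (Finset.mem_coe.1 hQ)
    have hne' : d ≠ d' := by rintro rfl; exact hne rfl
    exact cyc_walk (hcyc d d' hne')

theorem main (k : ℕ) (hk : 1 ≤ k) : ∃ C : ℕ, ∀ n : ℕ, 2 ≤ n →
    ∃ F : Finset (SimpleGraph (Fin n)),
      (∀ P ∈ F, Nonempty (SimpleGraph.pathGraph n ≃g P)) ∧
      (F : Set (SimpleGraph (Fin n))).Pairwise
        (fun P Q => ∃ v : Fin n, ∃ w : (P ⊔ Q).Walk v v, w.IsCycle ∧ w.length = 2 * k + 1) ∧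
      2 ^ n ≤ n ^ C * F.card := by
  classical
  obtain ⟨h, rfl⟩ : ∃ h, k = h + 1 := ⟨k - 1, by omega⟩
  obtain ⟨A, B, K, hABK⟩ := exists_code h (h + 1) 1 le_rfl (by
    rw [mul_one]; exact (Nat.lt_two_pow_self).le)
  set m := (4 * (h + 1)) ^ (h + 1) with hm
  refine ⟨(2 * m + K) + (A + 2) * B, fun n hn => ?_⟩
  rcases Nat.lt_or_ge n K with hnK | hnK
  · refine ⟨{SimpleGraph.pathGraph n}, ?_, ?_, ?_⟩
    · intro P hP
      rw [Finset.mem_singleton] at hP
      subst hP
      exact ⟨SimpleGraph.Iso.refl⟩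
    · intro P hP Q hQ hne
      simp only [Finset.coe_singleton, Set.mem_singleton_iff] at hP hQ
      exact absurd (hP.trans hQ.symm) hne
    · rw [Finset.card_singleton, mul_one]
      calc 2 ^ n ≤ 2 ^ ((2 * m + K) + (A + 2) * B) := Nat.pow_le_pow_right (by norm_num) (by omega)
        _ ≤ _ := Nat.pow_le_pow_left hn _
  · have hm0 : 0 < m := Nat.pow_pos (by omega)
    set q := (n - K) / (2 * m) with hq
    obtain ⟨ι, κ, δ, fι, fκ, fδ, c1, c2, c3, hcode⟩ := hABK q
    have h1 : (2 * m) * q ≤ n - K := Nat.mul_div_le _ _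
    have h2 : n - K < (2 * m) * (q + 1) := Nat.lt_mul_div_succ _ (by omega)
    have e1 : Fintype.card ι = 2 * m * q := by rw [c1]; ring
    obtain ⟨F, f1, f2, f3⟩ := family_of_code hcode (n := n) (by rw [e1, c2]; omega)
    refine ⟨F, f2, ?_, ?_⟩
    · intro P hP Q hQ hne
      obtain ⟨v, w, w1, w2⟩ := f3 hP hQ hne
      exact ⟨v, w, w1, by rw [w2]; ring⟩
    · rw [f1]
      rw [e1] at c3
      have h3 : n ≤ (2 * m + K) + 2 * m * q := by
        have : (2 * m) * (q + 1) = 2 * m * q + 2 * m := by ring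
        omega
      have h4 : q + 1 ≤ n ^ 2 := by
        have : q ≤ n := by
          refine (Nat.div_le_self _ _).trans ?_
          omega
        nlinarith
      have h5 : A ≤ n ^ A := (Nat.lt_pow_self (by omega)).le
      calc 2 ^ n ≤ 2 ^ ((2 * m + K) + 2 * m * q) := Nat.pow_le_pow_right (by norm_num) h3
        _ = 2 ^ (2 * m + K) * 2 ^ (2 * m * q) := pow_add _ _ _
        _ ≤ n ^ (2 * m + K) * ((A * (q + 1)) ^ B * Fintype.card δ) :=
            Nat.mul_le_mul (Nat.pow_le_pow_left hn _) c3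
        _ ≤ n ^ (2 * m + K) * ((n ^ A * n ^ 2) ^ B * Fintype.card δ) := by
            refine Nat.mul_le_mul_left _ (Nat.mul_le_mul_right _ (Nat.pow_le_pow_left ?_ _))
            exact Nat.mul_le_mul h5 h4
        _ = _ := by rw [← pow_add, ← pow_mul, ← mul_assoc, ← pow_add]

end Pool.Agent.H40OC
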