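import Pool.Agent.H40.OC.Arr

set_option autoImplicit false

namespace Pool.Agent.H40OC

variable {α : Type}

lemma mem_take_flatten : ∀ (ls : List (List α)) (h : ℕ) (z : α), (∀ l ∈ ls, l ≠ []) →
    z ∈ ls.flatten.take h → ∃ i, ∃ hi : i < ls.length, i < h ∧ z ∈ ls[i]
  | [], h, z, _, hz => by simp at hz
  | l :: ls, h, z, hne, hz => by
    have hl : l ≠ [] := hne l (by simp)
    have hl0 : 0 < l.length := List.length_pos_iff.2 hl
    rw [List.flatten_cons, List.take_append, List.mem_append] at hz
    have hh : 0 < h := by
      rcases Nat.eq_zero_or_pos h with h0 | h0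
      · subst h0; simp at hz
      · exact h0
    rcases hz with hz | hz
    · exact ⟨0, by simp, hh, by simpa using List.mem_of_mem_take hz⟩
    · obtain ⟨i, hi, h1, h2⟩ := mem_take_flatten ls (h - l.length) z
        (fun l hl => hne l (by simp [hl])) hz
      exact ⟨i + 1, by simpa using hi, by omega, by simpa using h2⟩

lemma mem_take_append {h : ℕ} {P Q : List α} {z : α} (hz : z ∈ (P ++ Q).take h) :
    z ∈ P ∨ z ∈ Q.take h := by
  rw [List.take_append, List.mem_append] at hz
  rcases hz with hz | hz
  · exact Or.inl (List.mem_of_mem_take hz)
  · refine Or.inr ?_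
    have : Q.take (h - P.length) <+: Q.take h := List.take_prefix_take_left (by omega)
    exact this.subset hz

lemma seg_col_mem {a : α} {jE jO : List α} {h : ℕ} (hjE : jE.length = h) (hjO : jO.length = h)
    {cs : List (List α × List α)} (hb : Bal cs) (hne : ∀ p ∈ cs, p.1 ≠ [])
    {r : ℕ} (hr : r < cs.length) {x y : α} {A' B' : List α} (hcs : cs[r] = (x :: A', y :: B')) :
    ∃ s, s.length = 2 * h ∧ (x :: (s ++ [y])) <:+: arr a jE jO cs ∧
      ∀ z ∈ s, z ∈ A' ∨ z ∈ jE ∨ z ∈ jO ∨ ∃ r', ∃ hr' : r' < cs.length,
        r' ≠ r ∧ r' ≤ r + h ∧ r ≤ r' + h ∧ (z ∈ (cs[r']).1 ∨ z ∈ (cs[r']).2) := by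
  have hsplit : cs = cs.take r ++ (x :: A', y :: B') :: cs.drop (r + 1) := by
    rw [← hcs, ← List.drop_eq_getElem_cons hr, List.take_append_drop]
  set pre := cs.take r with hpre
  set post := cs.drop (r + 1) with hpost
  have hbp : Bal pre := fun p hp => hb p (List.mem_of_mem_take hp)
  refine ⟨il ((jO ++ fO pre).drop (fE pre).length) ((A' ++ (fE post ++ jE)).take h), ?_, ?_, ?_⟩
  · rw [il_length, drop_len hbp hjO, List.length_take]
    simp only [List.length_append]; omega
  · have := seg_col (a := a) hjE hjO hbp (post := post) (x := x) (y := y) (A' := A') (B' := B')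
    rw [← hsplit] at this
    exact this
  · intro z hz
    rw [mem_il] at hz
    rcases hz with hz | hz
    · -- second row
      rw [hbp.len, List.drop_append, List.mem_append] at hz
      rcases hz with hz | hz
      · exact Or.inr (Or.inr (Or.inl (List.mem_of_mem_drop hz)))
      · right; right; right
        have hz' : z ∈ (fO pre).reverse.take h := by
          rw [List.take_reverse, List.mem_reverse, ← hjO]
          exact hz
        unfold fO at hz'
        rw [List.reverse_flatten] at hz'
        obtain ⟨i, hi, h1, h2⟩ := mem_take_flatten _ h z (by
          intro l hl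
          rw [List.mem_reverse, List.mem_map] at hl
          obtain ⟨l', hl', rfl⟩ := hl
          rw [List.mem_map] at hl'
          obtain ⟨p, hp, rfl⟩ := hl'
          have h1 := hne p (List.mem_of_mem_take hp)
          have h2 := hbp p hp
          intro h3
          apply h1
          apply List.length_eq_zero_iff.1
          rw [h2]
          simpa using congrArg List.length h3) hz'
        have hlen : ((List.map List.reverse (List.map Prod.snd pre)).reverse).length = r := by
          simp [hpre]; omega
        rw [hlen] at hi
        have hr2 : r - 1 - i < cs.length := by omega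
        refine ⟨r - 1 - i, hr2, by omega, by omega, by omega, Or.inr ?_⟩
        rw [List.getElem_reverse] at h2
        simp only [List.getElem_map, List.mem_reverse] at h2
        have hidx : (List.map List.reverse (List.map Prod.snd pre)).length - 1 - i = r - 1 - i := by
          rw [← List.length_reverse, hlen]
        simp only [hidx] at h2
        have e : pre[r - 1 - i]'(by simp [hpre]; omega) = cs[r - 1 - i] := by
          simp only [hpre, List.getElem_take]
        rw [e] at h2
        exact h2
    · -- first row
      rcases mem_take_append hz with hz | hz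
      · exact Or.inl hz
      · rcases Nat.lt_or_ge 0 h with hh | hh
        · rw [List.take_append, List.mem_append] at hz
          rcases hz with hz | hz
          · right; right; right
            unfold fE at hz
            obtain ⟨i, hi, h1, h2⟩ := mem_take_flatten _ h z (by
              intro l hl
              rw [List.mem_map] at hl
              obtain ⟨p, hp, rfl⟩ := hl
              exact hne p (List.mem_of_mem_drop hp)) hz
            simp only [List.length_map, hpost, List.length_drop] at hi
            refine ⟨r + 1 + i, by omega, by omega, by omega, by omega, Or.inl ?_⟩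
            simp only [List.getElem_map, hpost, List.getElem_drop] at h2
            exact h2
          · exact Or.inr (Or.inl (List.mem_of_mem_take hz))
        · have h0 : h = 0 := by omega
          subst h0
          simp at hz

end Pool.Agent.H40OC
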