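import Pool.Agent.H40.OC.Base
import Pool.Agent.H40.OC.SegMem

set_option autoImplicit false

namespace Pool.Agent.H40OC

variable {α : Type}

lemma coe_ofFn : ∀ {n : ℕ} (f : Fin n → α),
    ((List.ofFn f : List α) : Multiset α) = ∑ i, {f i}
  | 0, f => by simp
  | n + 1, f => by
    rw [List.ofFn_succ, ← Multiset.cons_coe, coe_ofFn, Fin.sum_univ_succ,
      Multiset.singleton_add]

lemma coe_flatten (l : List (List α)) :
    ((l.flatten : List α) : Multiset α) = (l.map (fun x : List α => (x : Multiset α))).sum := by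
  induction l with
  | nil => simp
  | cons a l ih =>
    rw [List.flatten_cons, ← Multiset.coe_add, ih, List.map_cons, List.sum_cons]

/-- the joker index type -/
abbrev JT (h : ℕ) := Unit ⊕ (Fin h ⊕ Fin h)

/-- A code: `δ` many paths on the combs indexed by `ι` and the jokers indexed by `κ`. -/
def Code (h L : ℕ) (ι κ δ : Type) [Fintype ι] [Fintype κ] : Prop :=
  ∀ (α : Type) (X : ι → List α) (jk : κ → α), (∀ i, (X i).length = L) →
    (∑ i, (X i : Multiset α) + ∑ j, ({jk j} : Multiset α)).Nodup →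
    ∃ W : δ → List α,
      (∀ d, (W d : Multiset α) = ∑ i, (X i : Multiset α) + ∑ j, ({jk j} : Multiset α)) ∧
      (∀ d i, Comb (W d) (X i)) ∧ (∀ d d', d ≠ d' → Cyc (2 * h + 3) (W d) (W d'))

theorem code_base (h L q : ℕ) (hL : h + 1 ≤ L) :
    Code h L (Fin (2 * q)) (JT h) {b : Fin (2 * q) → Bool // (∑ i, sg (b i)) = 0} := by
  intro α X jk hX hnd
  set Y : {b : Fin (2 * q) → Bool // (∑ i, sg (b i)) = 0} → List (Bool × List α) :=
    fun b => List.ofFn (fun i => (b.1 i, X i)) with hY
  set jE : List α := List.ofFn (fun i => jk (Sum.inr (Sum.inl i))) with hjE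
  set jO : List α := List.ofFn (fun i => jk (Sum.inr (Sum.inr i))) with hjO
  have hE : ∀ b, EE (Y b) = 0 := by
    intro b
    simp only [EE, hY, List.map_ofFn, List.sum_ofFn]
    exact b.2
  have hlen : ∀ b, (Y b).length = 2 * q := by intro b; simp [hY]
  have hLen : ∀ b, Len L (Y b) := by
    intro b p hp
    simp only [hY, List.mem_ofFn] at hp
    obtain ⟨i, rfl⟩ := hp
    exact hX i
  have hmap : ∀ b, (Y b).map Prod.snd = List.ofFn X := by
    intro b
    simp only [hY, List.map_ofFn]
    rfl
  have hjEl : jE.length = h := by simp [hjE]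
  have hjOl : jO.length = h := by simp [hjO]
  have hsum : ∀ b, ((arr (jk (Sum.inl ())) jE jO (dbl (2 * q) (Y b)) : List α) : Multiset α) =
      ∑ i, (X i : Multiset α) + ∑ j, ({jk j} : Multiset α) := by
    intro b
    rw [coe_arr]
    have := dbl_sum (2 * q) (Y b) (hE b) (by rw [hlen])
    unfold csum at this
    rw [this]
    have e1 : msum (Y b) = ∑ i, (X i : Multiset α) := by
      simp only [msum, hY, List.map_ofFn, List.sum_ofFn]
      rfl
    rw [e1, hjE, hjO, coe_ofFn, coe_ofFn, Fintype.sum_sum_type, Fintype.sum_sum_type]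
    simp only [Finset.univ_unique, PUnit.default_eq_unit, Finset.sum_singleton]
    abel
  have hnd' : ∀ b, (arr (jk (Sum.inl ())) jE jO (dbl (2 * q) (Y b))).Nodup := by
    intro b
    rw [← Multiset.coe_nodup, hsum]
    exact hnd
  refine ⟨fun b => arr (jk (Sum.inl ())) jE jO (dbl (2 * q) (Y b)), hsum, ?_, ?_⟩
  · intro b i
    have := comb_dbl (a := jk (Sum.inl ())) hjEl hjOl (pre := []) (by intro p hp; simp at hp)
      (hLen b) (hE b) (f := 2 * q) (by rw [hlen]) (K := X i)
      (by rw [hmap, List.mem_ofFn]; exact ⟨i, rfl⟩)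
      (by intro h0; have := hX i; rw [h0] at this; simp at this; omega)
    simpa using this
  · intro b b' hne
    have hne' : Y b ≠ Y b' := by
      intro he
      apply hne
      apply Subtype.ext
      funext i
      have := List.ofFn_injective he
      exact congrArg Prod.fst (congrFun this i)
    have := base_cmp (a := jk (Sum.inl ())) hjEl hjOl (2 * q) (Y b) (Y b') [] hL (hLen b)
      (by rw [hmap, hmap]) (hE b) (hE b') hne' (by rw [hlen]) (by intro p hp; simp at hp)
      (by simpa using hnd' b) (by simpa using hnd' b')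
    simpa using this

/-- distinctness of the entries -/
lemma disj_of_nodup {ι κ : Type} [Fintype ι] [Fintype κ] {X : ι → List α} {jk : κ → α}
    (hnd : (∑ i, (X i : Multiset α) + ∑ j, ({jk j} : Multiset α)).Nodup) :
    (∀ i i' x, x ∈ X i → x ∈ X i' → i = i') ∧ (∀ i j x, x ∈ X i → x ≠ jk j) ∧
      (∀ j j', jk j = jk j' → j = j') := by
  classical
  have key : ∀ {μ : Type} [Fintype μ] (f : μ → Multiset α) (m m' : μ) (x : α), m ≠ m' →
      (∑ i, f i).Nodup → x ∈ f m → x ∈ f m' → False := by
    intro μ _ f m m' x hne hn h1 h2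
    have hle : f m + f m' ≤ ∑ i, f i := by
      have : ∑ i ∈ {m, m'}, f i = f m + f m' := Finset.sum_pair hne
      rw [← this]
      exact Finset.sum_le_sum_of_subset (Finset.subset_univ _)
    have hn2 := Multiset.nodup_of_le hle hn
    rw [Multiset.nodup_add] at hn2
    exact (Multiset.disjoint_left.1 hn2.2.2) h1 h2
  have h1 := hnd
  rw [Multiset.nodup_add] at h1
  obtain ⟨n1, n2, n3⟩ := h1
  refine ⟨?_, ?_, ?_⟩
  · intro i i' x hx hx'
    by_contra hne
    exact key (fun i => (X i : Multiset α)) i i' x hne n1 hx hx'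
  · intro i j x hx he
    have a1 : x ∈ ∑ i, (X i : Multiset α) := by
      rw [Multiset.mem_sum]
      exact ⟨i, Finset.mem_univ _, hx⟩
    have a2 : x ∈ ∑ j, ({jk j} : Multiset α) := by
      rw [Multiset.mem_sum]
      exact ⟨j, Finset.mem_univ _, by simp [he]⟩
    exact (Multiset.disjoint_left.1 n3) a1 a2
  · intro j j' he
    by_contra hne
    exact key (fun j => ({jk j} : Multiset α)) j j' (jk j) hne n2 (by simp) (by simp [he])

section step

variable {h L N : ℕ} {ι κ δ : Type} [Fintype ι] [Fintype κ]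

/-- the unequal pairs of a class -/
abbrev SS (N : ℕ) := {S : Finset (Fin (2 * N)) // S.card = N}

lemma card_compl (S : SS N) : Fintype.card {p : Fin (2 * N) // p ∉ S.1} = N := by
  rw [Fintype.card_subtype_compl, Fintype.card_coe, S.2, Fintype.card_fin]
  omega

noncomputable def eqE (hN : Fintype.card ι = N) (S : SS N) : ι ≃ {p : Fin (2 * N) // p ∉ S.1} :=
  Fintype.equivOfCardEq (by rw [card_compl, hN])

noncomputable def eqU (S : SS N) : Fin N ≃ {p : Fin (2 * N) // p ∈ S.1} :=
  Fintype.equivOfCardEq (by rw [Fintype.card_coe, S.2, Fintype.card_fin])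

lemma sum_split {M : Type} [AddCommMonoid M] (hN : Fintype.card ι = N) (S : SS N)
    (P : Fin (2 * N) → M) :
    ∑ p, P p = ∑ j : Fin N, P (eqU S j).1 + ∑ i : ι, P (eqE hN S i).1 := by
  classical
  have e1 : ∑ j : Fin N, P (eqU S j).1 = ∑ p : {p : Fin (2 * N) // p ∈ S.1}, P p.1 :=
    Equiv.sum_comp (eqU S) (fun p => P p.1)
  have e2 : ∑ i : ι, P (eqE hN S i).1 = ∑ p : {p : Fin (2 * N) // p ∉ S.1}, P p.1 :=
    Equiv.sum_comp (eqE hN S) (fun p => P p.1)
  rw [e1, e2, Finset.sum_coe_sort]
  have e3 : ∑ p : {p : Fin (2 * N) // p ∉ S.1}, P p.1 = ∑ p ∈ S.1ᶜ, P p :=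
    (Finset.sum_subtype _ (by simp) P).symm
  rw [e3, Finset.sum_add_sum_compl]

/-- the merged combs of a class -/
noncomputable def YY (hN : Fintype.card ι = N) (X : Fin (h + 1) × Fin (2 * N) × Bool → List α)
    (c : Fin (h + 1)) (S : SS N) (i : ι) : List α :=
  (X (c, (eqE hN S i).1, false)).reverse ++ X (c, (eqE hN S i).1, true)

/-- the column of an unequal pair -/
noncomputable def colf (X : Fin (h + 1) × Fin (2 * N) × Bool → List α)
    (S : Fin (h + 1) → SS N) (σ : Fin (h + 1) → Fin N → Bool) (x : Fin N × Fin (h + 1)) :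
    List α × List α :=
  if σ x.2 x.1 then (X (x.2, (eqU (S x.2) x.1).1, true), X (x.2, (eqU (S x.2) x.1).1, false))
  else (X (x.2, (eqU (S x.2) x.1).1, false), X (x.2, (eqU (S x.2) x.1).1, true))

noncomputable def cols (X : Fin (h + 1) × Fin (2 * N) × Bool → List α)
    (S : Fin (h + 1) → SS N) (σ : Fin (h + 1) → Fin N → Bool) : List (List α × List α) :=
  List.ofFn (fun r : Fin (N * (h + 1)) => colf X S σ (finProdFinEquiv.symm r))

lemma csum_cols (X : Fin (h + 1) × Fin (2 * N) × Bool → List α)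
    (S : Fin (h + 1) → SS N) (σ : Fin (h + 1) → Fin N → Bool) :
    csum (cols X S σ) = ∑ c, ∑ j : Fin N,
      ((X (c, (eqU (S c) j).1, false) : Multiset α) + (X (c, (eqU (S c) j).1, true))) := by
  unfold csum cols
  rw [List.map_ofFn, List.sum_ofFn]
  have e1 : ∀ x : Fin N × Fin (h + 1),
      (((colf X S σ x).1 : Multiset α) + (colf X S σ x).2) =
        ((X (x.2, (eqU (S x.2) x.1).1, false) : Multiset α) +
          (X (x.2, (eqU (S x.2) x.1).1, true))) := by
    intro x
    unfold colf
    split_ifs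
    · exact add_comm _ _
    · rfl
  simp only [Function.comp]
  have e2 := Equiv.sum_comp (finProdFinEquiv (m := N) (n := h + 1)).symm
    (fun x => (((colf X S σ x).1 : Multiset α) + (colf X S σ x).2))
  rw [e2]
  simp only [e1]
  rw [Fintype.sum_prod_type, Finset.sum_comm]

end step

end Pool.Agent.H40OC
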