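import Pool.Agent.H40.OC.Node

set_option autoImplicit false

namespace Pool.Agent.H40OC

lemma mod_ne {n r s : ℕ} (hne : r ≠ s) (h1 : r < s + n) (h2 : s < r + n) : r % n ≠ s % n := by
  intro he
  rcases Nat.lt_or_gt_of_ne hne with hlt | hlt
  · have := Nat.sub_mod_eq_zero_of_mod_eq he.symm
    have h3 := Nat.eq_zero_of_dvd_of_lt (Nat.dvd_of_mod_eq_zero this) (by omega)
    omega
  · have := Nat.sub_mod_eq_zero_of_mod_eq he
    have h3 := Nat.eq_zero_of_dvd_of_lt (Nat.dvd_of_mod_eq_zero this) (by omega)
    omega

lemma fpf_mod {N h : ℕ} (r : Fin (N * (h + 1))) :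
    (finProdFinEquiv.symm r).2.1 = r.1 % (h + 1) := by
  simp [finProdFinEquiv]

lemma colf_congr {α : Type} {h N : ℕ} (X : Fin (h + 1) × Fin (2 * N) × Bool → List α)
    (S S' : Fin (h + 1) → SS N) (hS : S = S') (σ σ' : Fin (h + 1) → Fin N → Bool)
    (x : Fin N × Fin (h + 1))
    (hx : σ x.2 x.1 = σ' x.2 x.1) : colf X S σ x = colf X S' σ' x := by
  subst hS
  unfold colf
  rw [hx]

lemma colf_swap {α : Type} {h N : ℕ} (X : Fin (h + 1) × Fin (2 * N) × Bool → List α)
    (S S' : Fin (h + 1) → SS N) (hS : S = S') (σ σ' : Fin (h + 1) → Fin N → Bool)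
    (x : Fin N × Fin (h + 1)) (hx : σ x.2 x.1 ≠ σ' x.2 x.1) :
    colf X S' σ' x = ((colf X S σ x).2, (colf X S σ x).1) := by
  subst hS
  unfold colf
  revert hx
  cases σ x.2 x.1 <;> cases σ' x.2 x.1 <;> simp

theorem code_step {h L N : ℕ} {ι κ δ : Type} [Fintype ι] [Fintype κ] (hN : Fintype.card ι = N)
    (hL : 1 ≤ L) (hc : Code h (2 * L) ι κ δ) :
    Code h L (Fin (h + 1) × Fin (2 * N) × Bool) (JT h ⊕ (Fin (h + 1) × κ))
      (Fin (h + 1) → SS N × (Fin N → Bool) × δ) := by
  classical
  intro α X jk hX hnd
  obtain ⟨D1, D2, D3⟩ := disj_of_nodup hnd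
  have hYlen : ∀ c S i, (YY hN X c S i).length = 2 * L := by
    intro c S i
    simp only [YY, List.length_append, List.length_reverse, hX]
    omega
  have hYsum : ∀ c S, ∑ i, (YY hN X c S i : Multiset α) =
      ∑ i : ι, ((X (c, (eqE hN S i).1, false) : Multiset α) + (X (c, (eqE hN S i).1, true))) := by
    intro c S
    refine Finset.sum_congr rfl ?_
    intro i _
    simp only [YY, ← Multiset.coe_add, Multiset.coe_reverse]
  have htot : ∀ S : Fin (h + 1) → SS N,
      ∑ i, (X i : Multiset α) + ∑ j, ({jk j} : Multiset α) =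
        (∑ c, ∑ j : Fin N, ((X (c, (eqU (S c) j).1, false) : Multiset α) +
          (X (c, (eqU (S c) j).1, true)))) + (∑ j : JT h, ({jk (Sum.inl j)} : Multiset α)) +
        ∑ c, (∑ i, (YY hN X c (S c) i : Multiset α) +
          ∑ j, ({jk (Sum.inr (c, j))} : Multiset α)) := by
    intro S
    have e1 : ∑ i, (X i : Multiset α) = ∑ c, ∑ p,
        ((X (c, p, false) : Multiset α) + (X (c, p, true))) := by
      rw [Fintype.sum_prod_type]
      refine Finset.sum_congr rfl ?_
      intro c _
      rw [Fintype.sum_prod_type]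
      refine Finset.sum_congr rfl ?_
      intro p _
      rw [Fintype.sum_bool, add_comm]
    have e2 : ∀ c, ∑ p, ((X (c, p, false) : Multiset α) + (X (c, p, true))) =
        (∑ j : Fin N, ((X (c, (eqU (S c) j).1, false) : Multiset α) +
          (X (c, (eqU (S c) j).1, true)))) + ∑ i, (YY hN X c (S c) i : Multiset α) := by
      intro c
      rw [hYsum]
      exact sum_split hN (S c) (fun p => ((X (c, p, false) : Multiset α) + (X (c, p, true))))
    rw [e1]
    simp only [e2]
    rw [Finset.sum_add_distrib, Finset.sum_add_distrib, Fintype.sum_sum_type,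
      Fintype.sum_prod_type (f := fun x : Fin (h + 1) × κ => ({jk (Sum.inr x)} : Multiset α))]
    abel
  have hYnd : ∀ c S, (∑ i, (YY hN X c S i : Multiset α) +
      ∑ j, ({jk (Sum.inr (c, j))} : Multiset α)).Nodup := by
    intro c S
    have h1 := htot (fun _ => S)
    rw [h1] at hnd
    have h2 := (Multiset.nodup_add.1 hnd).2.1
    refine Multiset.nodup_of_le ?_ h2
    exact Finset.single_le_sum_of_canonicallyOrdered
      (f := fun c => (∑ i, (YY hN X c S i : Multiset α) +
      ∑ j, ({jk (Sum.inr (c, j))} : Multiset α))) (Finset.mem_univ c)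
  choose W' hW1 hW2 hW3 using (fun c S => hc α (YY hN X c S) (fun j => jk (Sum.inr (c, j)))
    (hYlen c S) (hYnd c S))
  set jE : List α := List.ofFn (fun i => jk (Sum.inl (Sum.inr (Sum.inl i)))) with hjE
  set jO : List α := List.ofFn (fun i => jk (Sum.inl (Sum.inr (Sum.inr i)))) with hjO
  set a0 : α := jk (Sum.inl (Sum.inl ())) with ha0
  have hjEl : jE.length = h := by simp [hjE]
  have hjOl : jO.length = h := by simp [hjO]
  set CC : (Fin (h + 1) → SS N × (Fin N → Bool) × δ) → List (List α × List α) :=
    fun d => cols X (fun c => (d c).1) (fun c => (d c).2.1) with hCC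
  set W : (Fin (h + 1) → SS N × (Fin N → Bool) × δ) → List α :=
    fun d => arr a0 jE jO (CC d) ++
      (List.ofFn (fun c => W' c (d c).1 (d c).2.2)).flatten with hW
  have hsum : ∀ d, (W d : Multiset α) =
      ∑ i, (X i : Multiset α) + ∑ j, ({jk j} : Multiset α) := by
    intro d
    rw [htot (fun c => (d c).1)]
    simp only [hW]
    rw [← Multiset.coe_add, coe_arr, coe_flatten, List.map_ofFn, List.sum_ofFn]
    have e1 := csum_cols X (fun c => (d c).1) (fun c => (d c).2.1)
    unfold csum at e1
    simp only [hCC, e1, Function.comp, hW1]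
    rw [hjE, hjO, coe_ofFn, coe_ofFn, Fintype.sum_sum_type, Fintype.sum_sum_type]
    simp only [Finset.univ_unique, PUnit.default_eq_unit, Finset.sum_singleton, ha0]
    abel
  have hWnd : ∀ d, (W d).Nodup := by
    intro d
    rw [← Multiset.coe_nodup, hsum]
    exact hnd
  have harr : ∀ d, arr a0 jE jO (CC d) <:+: W d := fun d => (List.prefix_append _ _).isInfix
  have harrnd : ∀ d, (arr a0 jE jO (CC d)).Nodup := fun d => (harr d).sublist.nodup (hWnd d)
  have hsubw : ∀ d c, W' c (d c).1 (d c).2.2 <:+: W d := by
    intro d c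
    refine List.IsInfix.trans ?_ (List.suffix_append _ _).isInfix
    apply List.infix_of_mem_flatten
    rw [List.mem_ofFn]
    exact ⟨c, rfl⟩
  have hcol : ∀ (d : Fin (h + 1) → SS N × (Fin N → Bool) × δ) x,
      (colf X (fun c => (d c).1) (fun c => (d c).2.1) x).1.length = L ∧
      (colf X (fun c => (d c).1) (fun c => (d c).2.1) x).2.length = L := by
    intro d x
    unfold colf
    split_ifs <;> simp [hX]
  have hbal : ∀ d, Bal (CC d) := by
    intro d p hp
    simp only [hCC, cols, List.mem_ofFn] at hp
    obtain ⟨r, rfl⟩ := hp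
    rw [(hcol d _).1, (hcol d _).2]
  have hne1 : ∀ d, ∀ p ∈ CC d, p.1 ≠ [] := by
    intro d p hp h0
    simp only [hCC, cols, List.mem_ofFn] at hp
    obtain ⟨r, rfl⟩ := hp
    have := (hcol d (finProdFinEquiv.symm r)).1
    rw [h0] at this
    simp only [List.length_nil] at this
    omega
  have hlenC : ∀ d, (CC d).length = N * (h + 1) := by intro d; simp [hCC, cols]
  -- the combs
  have hcomb : ∀ d i, Comb (W d) (X i) := by
    rintro d ⟨c, p, b⟩
    by_cases hp : p ∈ (d c).1.1
    · set j := (eqU (d c).1).symm ⟨p, hp⟩ with hj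
      have hjp : (eqU (d c).1 j).1 = p := by rw [hj, Equiv.apply_symm_apply]
      have hmem : colf X (fun c => (d c).1) (fun c => (d c).2.1) (j, c) ∈ CC d := by
        simp only [hCC, cols, List.mem_ofFn]
        exact ⟨finProdFinEquiv (j, c), by rw [Equiv.symm_apply_apply]⟩
      have hcc := comb_col (a := a0) hjEl hjOl (hbal d)
        (A := (colf X (fun c => (d c).1) (fun c => (d c).2.1) (j, c)).1)
        (B := (colf X (fun c => (d c).1) (fun c => (d c).2.1) (j, c)).2) hmem (hne1 d _ hmem)
      have h1 := hcc.1.mono (harr d)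
      have h2 := hcc.2.mono (harr d)
      unfold colf at h1 h2
      simp only at h1 h2
      rw [hjp] at h1 h2
      split_ifs at h1 h2
      · cases b
        · exact h2
        · exact h1
      · cases b
        · exact h1
        · exact h2
    · set i := (eqE hN (d c).1).symm ⟨p, hp⟩ with hi
      have hip : (eqE hN (d c).1 i).1 = p := by rw [hi, Equiv.apply_symm_apply]
      have hcc := (hW2 c (d c).1 (d c).2.2 i).mono (hsubw d c)
      simp only [YY, hip] at hcc
      cases b
      · have h0 : (X (c, p, false)).reverse ≠ [] := by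
          intro h0
          have := congrArg List.length h0
          simp only [List.length_reverse, hX, List.length_nil] at this
          omega
        have := (hcc.sub (List.prefix_append _ _).isInfix h0).reverse
        rwa [List.reverse_reverse] at this
      · have h0 : X (c, p, true) ≠ [] := by
          intro h0
          have := congrArg List.length h0
          simp only [hX, List.length_nil] at this
          omega
        exact hcc.sub (List.suffix_append _ _).isInfix h0
  refine ⟨W, hsum, hcomb, ?_⟩
  -- different types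
  have hA : ∀ d d' c p, p ∈ (d' c).1.1 → p ∉ (d c).1.1 → Cyc (2 * h + 3) (W d) (W d') := by
    intro d d' c p hp' hp
    set V := X (c, p, false) with hV
    set V' := X (c, p, true) with hV'
    have hVl : V.length = L := hX _
    have hVl' : V'.length = L := hX _
    obtain ⟨v, V1, hv⟩ : ∃ v V1, V = v :: V1 := by
      have : V ≠ [] := by intro h0; rw [h0] at hVl; simp at hVl; omega
      exact ⟨V.head this, V.tail, (List.cons_head_tail this).symm⟩
    obtain ⟨v', V1', hv'⟩ : ∃ v V1, V' = v :: V1 := by
      have : V' ≠ [] := by intro h0; rw [h0] at hVl'; simp at hVl'; omega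
      exact ⟨V'.head this, V'.tail, (List.cons_head_tail this).symm⟩
    -- the equal side
    set i := (eqE hN (d c).1).symm ⟨p, hp⟩ with hi
    have hip : (eqE hN (d c).1 i).1 = p := by rw [hi, Equiv.apply_symm_apply]
    have hcc := hW2 c (d c).1 (d c).2.2 i
    simp only [YY, hip] at hcc
    rw [← hV, ← hV', hv, hv'] at hcc
    have e : (v :: V1).reverse ++ v' :: V1' = V1.reverse ++ v :: ([] ++ v' :: V1') := by simp
    rw [e] at hcc
    have hW'nd : (W' c (d c).1 (d c).2.2).Nodup := (hsubw d c).sublist.nodup (hWnd d)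
    obtain ⟨M, hM, hseg, hMn⟩ := hcc.notMem hW'nd
    obtain ⟨m, rfl⟩ : ∃ m, M = [m] := List.length_eq_one_iff.1 (by simpa using hM)
    have hseg' : Seg (W' c (d c).1 (d c).2.2) v [m] v' := by
      simp only [List.reverse_nil, il_cons, il_nil] at hseg
      rcases hseg with hseg | hseg
      · exact hseg
      · simpa using hseg.symm
    have hmn := hMn m (by simp)
    rw [← e, ← hv, ← hv'] at hmn
    simp only [List.mem_append, List.mem_reverse, not_or] at hmn
    have hmem : m ∈ W' c (d c).1 (d c).2.2 := by
      rcases hseg' with hs | hs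
      · exact hs.subset (by simp)
      · exact hs.subset (by simp)
    have hmown : (∃ p' b', p' ≠ p ∧ m ∈ X (c, p', b')) ∨ (∃ j, m = jk (Sum.inr (c, j))) := by
      have h1 : m ∈ ((W' c (d c).1 (d c).2.2 : List α) : Multiset α) := hmem
      rw [hW1, Multiset.mem_add, Multiset.mem_sum, Multiset.mem_sum] at h1
      rcases h1 with ⟨i', _, h1⟩ | ⟨j, _, h1⟩
      · left
        simp only [YY, Multiset.mem_coe, List.mem_append, List.mem_reverse] at h1
        rcases h1 with h1 | h1
        · refine ⟨_, _, ?_, h1⟩
          intro he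
          rw [he] at h1
          exact hmn.1 h1
        · refine ⟨_, _, ?_, h1⟩
          intro he
          rw [he] at h1
          exact hmn.2 h1
      · right
        exact ⟨j, by simpa using h1⟩
    -- the unequal side
    set j' := (eqU (d' c).1).symm ⟨p, hp'⟩ with hj'
    have hjp : (eqU (d' c).1 j').1 = p := by rw [hj', Equiv.apply_symm_apply]
    set r := finProdFinEquiv (j', c) with hr
    have hrlt : r.1 < (CC d').length := by rw [hlenC]; exact r.2
    have hrmod : r.1 % (h + 1) = c.1 := by
      rw [← fpf_mod, hr, Equiv.symm_apply_apply]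
    have hget : (CC d')[r.1] = colf X (fun c => (d' c).1) (fun c => (d' c).2.1) (j', c) := by
      simp only [hCC, cols, List.getElem_ofFn]
      congr 1
      exact Equiv.symm_apply_apply _ _
    have hfin : ∀ (x y : α) (A' B' : List α), (CC d')[r.1] = (x :: A', y :: B') →
        (∀ z ∈ A', z ∈ V ∨ z ∈ V') → Seg (W' c (d c).1 (d c).2.2) x [m] y →
        Cyc (2 * h + 3) (W d) (W d') := by
      intro x y A' B' hxy hA' hs
      obtain ⟨s, s1, s2, s3⟩ := seg_col_mem (a := a0) hjEl hjOl (hbal d') (hne1 d') hrlt hxy
      refine cyc_of_segs (hWnd d) (hWnd d') (hs.mono (hsubw d c))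
        (Seg.mono (harr d') (Or.inl s2)) ?_ (by rw [s1]; simp; omega) (by omega)
      intro z hz hzs
      have hzm : z = m := by simpa using hz
      subst hzm
      rcases s3 z hzs with h1 | h1 | h1 | ⟨r', hr', h1, h2, h3, h4⟩
      · rcases hA' z h1 with h1 | h1
        · exact hmn.1 h1
        · exact hmn.2 h1
      · rw [hjE, List.mem_ofFn] at h1
        obtain ⟨i, hi⟩ := h1
        rcases hmown with ⟨p', b', _, h5⟩ | ⟨j, h5⟩
        · exact D2 _ _ _ h5 hi.symm
        · have := D3 _ _ (hi.trans h5)
          simp at this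
      · rw [hjO, List.mem_ofFn] at h1
        obtain ⟨i, hi⟩ := h1
        rcases hmown with ⟨p', b', _, h5⟩ | ⟨j, h5⟩
        · exact D2 _ _ _ h5 hi.symm
        · have := D3 _ _ (hi.trans h5)
          simp at this
      · -- another column: its class differs
        have hr'' : r' < N * (h + 1) := by rw [← hlenC d']; exact hr'
        have hget' : (CC d')[r'] = colf X (fun c => (d' c).1) (fun c => (d' c).2.1)
            (finProdFinEquiv.symm ⟨r', hr''⟩) := by
          simp only [hCC, cols, List.getElem_ofFn]
        set x' := finProdFinEquiv.symm (⟨r', hr''⟩ : Fin (N * (h + 1))) with hx'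
        have hmod : x'.2.1 = r' % (h + 1) := by
          rw [hx']
          simp [finProdFinEquiv]
        have hcne : x'.2 ≠ c := by
          intro he
          have h6 := congrArg Fin.val he
          rw [hmod] at h6
          exact mod_ne h1 (n := h + 1) (by omega) (by omega) (by rw [h6, hrmod])
        have hown : ∃ b'', z ∈ X (x'.2, (eqU ((d' x'.2).1) x'.1).1, b'') := by
          rw [hget'] at h4
          unfold colf at h4
          split_ifs at h4
          · rcases h4 with h4 | h4
            · exact ⟨_, h4⟩
            · exact ⟨_, h4⟩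
          · rcases h4 with h4 | h4
            · exact ⟨_, h4⟩
            · exact ⟨_, h4⟩
        obtain ⟨b'', hb''⟩ := hown
        rcases hmown with ⟨p', b', _, h5⟩ | ⟨j, h5⟩
        · have := D1 _ _ _ hb'' h5
          exact hcne (congrArg Prod.fst this)
        · exact D2 _ _ _ hb'' h5
    unfold colf at hget
    simp only at hget
    rw [hjp, ← hV, ← hV'] at hget
    split_ifs at hget
    · rw [hv, hv'] at hget
      refine hfin v' v V1' V1 hget ?_ (by simpa using hseg'.symm)
      intro z hz
      right; rw [hv']; simp [hz]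
    · rw [hv, hv'] at hget
      refine hfin v v' V1 V1' hget ?_ hseg'
      intro z hz
      left; rw [hv]; simp [hz]
  intro d d' hne
  by_cases hS : ∀ c, (d c).1 = (d' c).1
  · by_cases hδ : ∀ c, (d c).2.2 = (d' c).2.2
    · -- the signs differ
      have hex : ∃ n, ∃ hn : n < N * (h + 1),
          (d (finProdFinEquiv.symm (⟨n, hn⟩ : Fin (N * (h + 1)))).2).2.1
            (finProdFinEquiv.symm (⟨n, hn⟩ : Fin (N * (h + 1)))).1 ≠
          (d' (finProdFinEquiv.symm (⟨n, hn⟩ : Fin (N * (h + 1)))).2).2.1
            (finProdFinEquiv.symm (⟨n, hn⟩ : Fin (N * (h + 1)))).1 := by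
        by_contra hcon
        push Not at hcon
        apply hne
        funext c
        have h1 : (d c).2.1 = (d' c).2.1 := by
          funext j
          have := hcon (finProdFinEquiv (j, c)).1 (finProdFinEquiv (j, c)).2
          simpa only [Fin.eta, Equiv.symm_apply_apply] using this
        exact Prod.ext (hS c) (Prod.ext h1 (hδ c))
      have hSS : (fun c => (d c).1) = (fun c => (d' c).1) := funext hS
      obtain ⟨hn, hdiff⟩ := Nat.find_spec hex
      set n := Nat.find hex with hndef
      have hmin : ∀ k, k < n → ∀ hk : k < N * (h + 1),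
          (d (finProdFinEquiv.symm (⟨k, hk⟩ : Fin (N * (h + 1)))).2).2.1
            (finProdFinEquiv.symm (⟨k, hk⟩ : Fin (N * (h + 1)))).1 =
          (d' (finProdFinEquiv.symm (⟨k, hk⟩ : Fin (N * (h + 1)))).2).2.1
            (finProdFinEquiv.symm (⟨k, hk⟩ : Fin (N * (h + 1)))).1 := by
        intro k hk hk'
        by_contra hcon
        exact Nat.find_min hex hk ⟨hk', hcon⟩
      have htake : (CC d).take n = (CC d').take n := by
        apply List.ext_getElem
        · simp [hlenC]
        · intro k h1 h2
          simp only [List.getElem_take, hCC, cols, List.getElem_ofFn]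
          simp only [List.length_take, hlenC] at h1
          have h3 := hmin k (by omega) (by omega)
          exact colf_congr X _ _ hSS (fun c => (d c).2.1) (fun c => (d' c).2.1) _ h3
      have hn1 : n < (CC d).length := by rw [hlenC]; exact hn
      have hn2 : n < (CC d').length := by rw [hlenC]; exact hn
      have e1 : CC d = (CC d).take n ++ (CC d)[n] :: (CC d).drop (n + 1) := by
        rw [← List.drop_eq_getElem_cons hn1, List.take_append_drop]
      have e2 : CC d' = (CC d).take n ++ (CC d')[n] :: (CC d').drop (n + 1) := by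
        rw [htake, ← List.drop_eq_getElem_cons hn2, List.take_append_drop]
      have g1 : (CC d)[n] = colf X (fun c => (d c).1) (fun c => (d c).2.1)
            (finProdFinEquiv.symm ⟨n, hn⟩) := by
        simp only [hCC, cols, List.getElem_ofFn]
      have g2 : (CC d')[n] = colf X (fun c => (d' c).1) (fun c => (d' c).2.1)
            (finProdFinEquiv.symm ⟨n, hn⟩) := by
        simp only [hCC, cols, List.getElem_ofFn]
      have g3 : (CC d')[n] = ((CC d)[n].2, (CC d)[n].1) := by
        rw [g1, g2]
        exact colf_swap X _ _ hSS (fun c => (d c).2.1) (fun c => (d' c).2.1) _ hdiff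
      rw [g3] at e2
      have n1 := harrnd d
      have n2 := harrnd d'
      have hmem : (CC d)[n] ∈ CC d := List.getElem_mem hn1
      have hcyc : Cyc (2 * h + 3) (arr a0 jE jO (CC d)) (arr a0 jE jO (CC d')) := by
        rw [e1] at n1 ⊢
        rw [e2] at n2 ⊢
        refine cyc_swap hjEl hjOl (A := (CC d)[n].1) (B := (CC d)[n].2) ?_
          (hbal d _ hmem) (hne1 d _ hmem) n1 n2
        intro p hp
        exact hbal d p (List.mem_of_mem_take hp)
      exact hcyc.mono (harr d) (harr d')
    · push Not at hδ
      obtain ⟨c, hc'⟩ := hδ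
      have h1 := hW3 c (d c).1 _ _ hc'
      refine h1.mono (hsubw d c) ?_
      rw [hS c]
      exact hsubw d' c
  · push Not at hS
    obtain ⟨c, hcS⟩ := hS
    have : ∃ p, p ∈ (d' c).1.1 ∧ p ∉ (d c).1.1 := by
      by_contra hcon
      push Not at hcon
      apply hcS
      apply Subtype.ext
      have hsub : (d' c).1.1 ⊆ (d c).1.1 := hcon
      exact (Finset.eq_of_subset_of_card_le hsub (by rw [(d c).1.2, (d' c).1.2])).symm
    obtain ⟨p, hp', hp⟩ := this
    exact hA d d' c p hp' hp

end Pool.Agent.H40OC
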